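import Pool.Agent.N443.PL.Tree

/-! The finite case analysis for five-sets with one edge (generated). -/

set_option autoImplicit false

namespace Pool.Agent.N443.PL

theorem tree1 (χ : ℕ → Bool)
    (k5 : ∀ a b c d e : Fin 5, χ (cod b c d e) = true → χ (cod a c d e) = true →
      χ (cod a b d e) = true → χ (cod a b c e) = true → χ (cod a b c d) = true → False)
    (f1 : ∀ a b c d : Fin 5, χ (cod a b c c) = true → χ (cod a b d d) = false →
      χ (cod a b c d) = false → False)
    (f2 : ∀ a b c d e : Fin 5, χ (cod a b c c) = false → χ (cod a b d d) = false →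
      χ (cod a b e e) = false → χ (cod a b c d) = true → χ (cod a b c e) = false →
      χ (cod a b d e) = false → False)
    (h780 : χ 780 = true)
    (h776 : χ 776 = false)
    (h756 : χ 756 = false)
    (h656 : χ 656 = false)
    (h156 : χ 156 = false) : False := by
  rcases tf (χ 32) with h32 | h32
  · have h1280 : χ 1280 = true := tt fun h => f1 1 2 0 4 h32 h h656
    rcases tf (χ 180) with h180 | h180
    · have h132 : χ 132 = true := tt fun h => f1 1 3 2 0 h180 h h156
      have h1380 : χ 1380 = true := tt fun h => f1 1 3 0 4 h132 h h756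
      have h1400 : χ 1400 = false := ff fun h => k5 1 2 3 4 4 h h1380 h1280 h780 h780
      have h152 : χ 152 = false := ff fun h => f1 2 3 0 4 h h1400 h776
      have h160 : χ 160 = false := ff fun h => f1 2 3 1 0 h h152 h156
      exact f2 2 3 1 4 0 h160 h1400 h152 h780 h156 h776
    · have h132 : χ 132 = false := ff fun h => f1 1 3 0 2 h h180 h156
      have h1380 : χ 1380 = true := tt fun h => f2 1 3 2 4 0 h180 h h132 h780 h156 h756
      exact f1 1 3 4 0 h1380 h132 h756
  · have h280 : χ 280 = false := ff fun h => f1 1 2 3 0 h h32 h156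
    have h1280 : χ 1280 = true := tt fun h => f2 1 2 3 4 0 h280 h h32 h780 h156 h656
    exact f1 1 2 4 0 h1280 h32 h656

end Pool.Agent.N443.PL
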