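import Pool.Agent.N443.PL.Occ
import Pool.Agent.N443.PL.Tree1

/-! Every large blow-up of a five-set with one edge contains one of the patterns. -/

set_option autoImplicit false
open Finset

namespace Pool.Agent.N443.PL

/-- the five vertices span exactly one edge, which misses the first vertex -/
def X1 {V : Type} [DecidableEq V] (H : Finset (Finset V)) (x : Fin 5 → V) : Prop :=
  ({x 1, x 2, x 3, x 4} : Finset V) ∈ H ∧ ({x 0, x 2, x 3, x 4} : Finset V) ∉ H ∧
    ({x 0, x 1, x 3, x 4} : Finset V) ∉ H ∧ ({x 0, x 1, x 2, x 4} : Finset V) ∉ H ∧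
    ({x 0, x 1, x 2, x 3} : Finset V) ∉ H

/-- every large blow-up of a five-set with one edge contains one of the patterns -/
theorem occ1 (t : ℕ) : ∃ T : ℕ, 0 < T ∧ 3 * t + 5 ≤ 5 * T ∧ ∀ (V : Type) [DecidableEq V]
    (H : Finset (Finset V)) (y : Fin 5 → Fin T → V), (∀ i a j b, y i a = y j b → i = j ∧ a = b) →
    (∀ f : Fin 5 → Fin T, X1 H fun i => y i (f i)) →
    (∃ e : Fin 5 → Fin 5 × Fin T, Function.Injective e ∧ Q5 H fun q => y (e q).1 (e q).2) ∨
    (∃ e : Fin 2 ⊕ (Fin t ⊕ Fin t) → Fin 5 × Fin T, Function.Injective e ∧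
      Cp H (G1 t) fun q => y (e q).1 (e q).2) ∨
    (∃ e : Fin 2 ⊕ ((Fin t ⊕ Fin t) ⊕ Fin t) → Fin 5 × Fin T, Function.Injective e ∧
      Cp H (G2 t) fun q => y (e q).1 (e q).2) := by
  obtain ⟨T, hT0, hT⟩ := hom_ex (3 * t + 5)
  have hTm : 3 * t + 5 ≤ T := by
    obtain ⟨χ, ζ, hζ, -⟩ := hT (Fin 5 × Fin T) ∅ fun i a => (i, a)
    have h1 : Function.Injective (ζ 0) := fun i j h => (hζ 0 i 0 j h).2
    have h2 := Fintype.card_le_of_injective _ h1
    rw [Fintype.card_fin, Fintype.card_fin] at h2
    exact h2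
  refine ⟨T, hT0, by omega, fun V _ H y hy hx => ?_⟩
  obtain ⟨χ, ζ, hζ, hm⟩ := hT V H y
  have hm' : Hm H y χ ζ := hm
  by_contra hcon
  rw [not_or, not_or] at hcon
  obtain ⟨n5, n1, n2⟩ := hcon
  let u : Fin 5 → Fin (3 * t + 5) := fun i => ⟨i.val, by omega⟩
  have hu : ∀ {i j : Fin 5}, i ≠ j → u i ≠ u j := fun h h' => h (Fin.ext (Fin.mk.inj_iff.mp h'))
  have ed : ∀ (a b c d : Fin 5) {i j k l : Fin 5}, i ≠ j → i ≠ k → i ≠ l → j ≠ k → j ≠ l → k ≠ l →
      (({y a (ζ a (u i)), y b (ζ b (u j)), y c (ζ c (u k)), y d (ζ d (u l))} : Finset V) ∈ H ↔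
        χ (cod a b c d) = true) := fun a b c d i j k l h1 h2 h3 h4 h5 h6 =>
    hm a b c d (u i) (u j) (u k) (u l) (hu h1) (hu h2) (hu h3) (hu h4) (hu h5) (hu h6)
  have hX := hx fun i => ζ i (u i)
  obtain ⟨x0, x1, x2, x3, x4⟩ := hX
  refine tree1 χ ?_ ?_ ?_ ((ed 1 2 3 4 (by decide) (by decide) (by decide) (by decide) (by decide)
      (by decide)).mp x0)
    (ff fun h => x1 ((ed 0 2 3 4 (by decide) (by decide) (by decide) (by decide) (by decide)
      (by decide)).mpr h))
    (ff fun h => x2 ((ed 0 1 3 4 (by decide) (by decide) (by decide) (by decide) (by decide)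
      (by decide)).mpr h))
    (ff fun h => x3 ((ed 0 1 2 4 (by decide) (by decide) (by decide) (by decide) (by decide)
      (by decide)).mpr h))
    (ff fun h => x4 ((ed 0 1 2 3 (by decide) (by decide) (by decide) (by decide) (by decide)
      (by decide)).mpr h))
  · intro a b c d e h0 h1 h2 h3 h4
    refine n5 ⟨fun i => (![a, b, c, d, e] i, ζ (![a, b, c, d, e] i) (u i)), ?_, ?_, ?_, ?_, ?_, ?_, ?_⟩
    · intro i j h
      by_contra hne
      exact hu hne (hζ _ _ _ _ (Prod.mk.inj h).2).2
    · intro i j h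
      by_contra hne
      have h5 := hy _ _ _ _ h
      exact hu hne (hζ _ _ _ _ h5.2).2
    · exact (ed b c d e (by decide) (by decide) (by decide) (by decide) (by decide) (by decide)).mpr h0
    · exact (ed a c d e (by decide) (by decide) (by decide) (by decide) (by decide) (by decide)).mpr h1
    · exact (ed a b d e (by decide) (by decide) (by decide) (by decide) (by decide) (by decide)).mpr h2
    · exact (ed a b c e (by decide) (by decide) (by decide) (by decide) (by decide) (by decide)).mpr h3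
    · exact (ed a b c d (by decide) (by decide) (by decide) (by decide) (by decide) (by decide)).mpr h4
  · intro a b c d h1 h2 h3
    refine n1 (occ_gen hζ hy hm' (by simp; omega) (G1 t) a b (Sum.elim (fun _ => c) fun _ => d) ?_)
    have h3' : χ (cod a b d c) = false := by
      have e : cod a b d c = cod a b c d := by unfold cod; ring
      rw [e]; exact h3
    rintro (j | j) (k | k) hjk
    · exact iff_of_true (by simpa [G1, SimpleGraph.sum] using hjk) h1
    · exact iff_of_false (by simp [G1, SimpleGraph.sum]) (bf h3)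
    · exact iff_of_false (by simp [G1, SimpleGraph.sum]) (bf h3')
    · exact iff_of_false (by simp [G1, SimpleGraph.sum]) (bf h2)
  · intro a b c d e h1 h2 h3 h4 h5 h6
    refine n2 (occ_gen hζ hy hm' (by simp; omega) (G2 t) a b
      (Sum.elim (Sum.elim (fun _ => c) fun _ => d) fun _ => e) ?_)
    have sw : ∀ a b c d : Fin 5, cod a b d c = cod a b c d := fun a b c d => by unfold cod; ring
    have h4' : χ (cod a b d c) = true := by rw [sw]; exact h4
    have h5' : χ (cod a b e c) = false := by rw [sw]; exact h5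
    have h6' : χ (cod a b e d) = false := by rw [sw]; exact h6
    rintro ((j | j) | j) ((k | k) | k) hjk
    · exact iff_of_false (by simp [G2, SimpleGraph.sum]) (bf h1)
    · exact iff_of_true (by simp [G2, SimpleGraph.sum]) h4
    · exact iff_of_false (by simp [G2, SimpleGraph.sum]) (bf h5)
    · exact iff_of_true (by simp [G2, SimpleGraph.sum]) h4'
    · exact iff_of_false (by simp [G2, SimpleGraph.sum]) (bf h2)
    · exact iff_of_false (by simp [G2, SimpleGraph.sum]) (bf h6)
    · exact iff_of_false (by simp [G2, SimpleGraph.sum]) (bf h5')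
    · exact iff_of_false (by simp [G2, SimpleGraph.sum]) (bf h6')
    · exact iff_of_false (by simp [G2, SimpleGraph.sum]) (bf h3)

end Pool.Agent.N443.PL
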