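import Pool.Agent.N443.PL.Few
import Pool.Agent.N443.PL.Occ1

/-! The counting step: few five-sets with one edge. -/

set_option autoImplicit false
open Finset

namespace Pool.Agent.N443.PL
open Pool.Agent.Y47.BU (Bl bl_card)

section
variable {V : Type} [Fintype V] [DecidableEq V]

open Classical in
/-- the five-tuples that span one edge -/
noncomputable def S1 (H : Finset (Finset V)) : Finset (Fin 5 → V) := univ.filter fun x => X1 H x

theorem mem_S1 {H : Finset (Finset V)} {x : Fin 5 → V} : x ∈ S1 H ↔ X1 H x := by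
  unfold S1
  simp only [mem_filter, mem_univ, true_and]

/-- the statement of `occ1` for a given `T` -/
def OccT1 (t T : ℕ) : Prop := ∀ (V : Type) [DecidableEq V]
    (H : Finset (Finset V)) (y : Fin 5 → Fin T → V), (∀ i a j b, y i a = y j b → i = j ∧ a = b) →
    (∀ f : Fin 5 → Fin T, X1 H fun i => y i (f i)) →
    (∃ e : Fin 5 → Fin 5 × Fin T, Function.Injective e ∧ Q5 H fun q => y (e q).1 (e q).2) ∨
    (∃ e : Fin 2 ⊕ (Fin t ⊕ Fin t) → Fin 5 × Fin T, Function.Injective e ∧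
      Cp H (G1 t) fun q => y (e q).1 (e q).2) ∨
    (∃ e : Fin 2 ⊕ ((Fin t ⊕ Fin t) ⊕ Fin t) → Fin 5 × Fin T, Function.Injective e ∧
      Cp H (G2 t) fun q => y (e q).1 (e q).2)

theorem cover1 {t T : ℕ} (hT : OccT1 t T) (H : Finset (Finset V)) :
    (Bl 5 T (S1 H)).card ≤ (5 * T) ^ 2 * Fintype.card V ^ (5 * T - 1) +
      ((5 * T) ^ 5 * ((O5 H).card * Fintype.card V ^ (5 * T - 5)) +
      ((5 * T) ^ (2 + (t + t)) * ((OC H (G1 t)).card * Fintype.card V ^ (5 * T - (2 + (t + t)))) +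
      (5 * T) ^ (2 + (t + t + t)) *
        ((OC H (G2 t)).card * Fintype.card V ^ (5 * T - (2 + (t + t + t)))))) := by
  classical
  have cB : Fintype.card (Fin 5 × Fin T) = 5 * T := by
    rw [Fintype.card_prod, Fintype.card_fin, Fintype.card_fin]
  have c5 : Fintype.card (Fin 5) = 5 := Fintype.card_fin 5
  have c1 : Fintype.card (Fin 2 ⊕ (Fin t ⊕ Fin t)) = 2 + (t + t) := by
    simp only [Fintype.card_sum, Fintype.card_fin]
  have c2 : Fintype.card (Fin 2 ⊕ ((Fin t ⊕ Fin t) ⊕ Fin t)) = 2 + (t + t + t) := by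
    simp only [Fintype.card_sum, Fintype.card_fin]
  set s : Finset (Fin 5 × Fin T → V) := (Bl 5 T (S1 H)).image fun (y : Fin 5 → Fin T → V)
    (q : Fin 5 × Fin T) => y q.1 q.2 with hs
  have hc : s.card = (Bl 5 T (S1 H)).card := by
    refine card_image_of_injective _ ?_
    intro y y' h
    funext i a
    exact congrFun h (i, a)
  have p0 := nonin (s.filter fun w => ¬ Function.Injective w) (fun w hw => (mem_filter.mp hw).2)
  have p5 := part (O5 H) (s.filter fun w => ∃ e : Fin 5 → Fin 5 × Fin T, Function.Injective e ∧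
    w ∘ e ∈ O5 H) (fun w hw => (mem_filter.mp hw).2)
  have p1 := part (OC H (G1 t)) (s.filter fun w => ∃ e : Fin 2 ⊕ (Fin t ⊕ Fin t) → Fin 5 × Fin T,
    Function.Injective e ∧ w ∘ e ∈ OC H (G1 t)) (fun w hw => (mem_filter.mp hw).2)
  have p2 := part (OC H (G2 t)) (s.filter fun w => ∃ e : Fin 2 ⊕ ((Fin t ⊕ Fin t) ⊕ Fin t) →
    Fin 5 × Fin T, Function.Injective e ∧ w ∘ e ∈ OC H (G2 t)) (fun w hw => (mem_filter.mp hw).2)
  rw [cB] at p0 p5 p1 p2
  rw [c5] at p5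
  rw [c1] at p1
  rw [c2] at p2
  rw [← hc]
  refine le_trans ?_ (Nat.add_le_add p0 (Nat.add_le_add p5 (Nat.add_le_add p1 p2)))
  refine le_trans ?_ (Nat.add_le_add_left ((card_union_le _ _).trans
    (Nat.add_le_add_left (card_union_le _ _) _)) _)
  refine le_trans ?_ (card_union_le _ _)
  refine card_le_card ?_
  intro w hw
  obtain ⟨y, hy, rfl⟩ := mem_image.mp hw
  have hy2 := mem_Bl.mp hy
  by_cases hinj : Function.Injective fun q : Fin 5 × Fin T => y q.1 q.2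
  · refine mem_union_right _ ?_
    rcases hT V H y (fun i a j b h => by
      have h2 := @hinj (i, a) (j, b) h
      exact ⟨(Prod.mk.inj h2).1, (Prod.mk.inj h2).2⟩) (fun f => mem_S1.mp (hy2 f)) with
      ⟨e, he, hO⟩ | ⟨e, he, hO⟩ | ⟨e, he, hO⟩
    · exact mem_union_left _ (mem_filter.mpr ⟨hw, e, he, mem_O5.mpr hO⟩)
    · exact mem_union_right _ (mem_union_left _ (mem_filter.mpr ⟨hw, e, he, mem_OC.mpr hO⟩))
    · exact mem_union_right _ (mem_union_right _ (mem_filter.mpr ⟨hw, e, he, mem_OC.mpr hO⟩))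
  · exact mem_union_left _ (mem_filter.mpr ⟨hw, hinj⟩)

/-- few five-tuples span one edge -/
theorem few1 (t : ℕ) (κ : ℝ) (hκ : 0 < κ) : ∃ δ : ℝ, 0 < δ ∧ ∃ n0 : ℕ, ∀ (V : Type) [Fintype V]
    [DecidableEq V] (H : Finset (Finset V)), n0 ≤ Fintype.card V →
    ((O5 H).card : ℝ) ≤ δ * (Fintype.card V : ℝ) ^ 5 →
    ((OC H (G1 t)).card : ℝ) ≤ δ * (Fintype.card V : ℝ) ^ (2 + (t + t)) →
    ((OC H (G2 t)).card : ℝ) ≤ δ * (Fintype.card V : ℝ) ^ (2 + (t + t + t)) →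
    ((S1 H).card : ℝ) ≤ κ * (Fintype.card V : ℝ) ^ 5 := by
  obtain ⟨T, hT0, hTt, hT'⟩ := occ1 t
  have hT : OccT1 t T := hT'
  obtain ⟨M, hM⟩ : ∃ M : ℝ, M = (5 * T : ℝ) ^ 2 + ((5 * T : ℝ) ^ 5 + ((5 * T : ℝ) ^ (2 + (t + t)) +
    (5 * T : ℝ) ^ (2 + (t + t + t)))) := ⟨_, rfl⟩
  have hM0 : 0 < M := by
    have : (0 : ℝ) < T := by exact_mod_cast hT0
    rw [hM]; positivity
  have hD : 0 < κ ^ (T ^ 5) := by positivity
  refine ⟨κ ^ (T ^ 5) / (M + 1), by positivity, ⌈(M + 1) / κ ^ (T ^ 5)⌉₊ + 1,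
    fun V _ _ H hn h5 h1 h2 => ?_⟩
  obtain ⟨δ, hδ⟩ : ∃ δ : ℝ, δ = κ ^ (T ^ 5) / (M + 1) := ⟨_, rfl⟩
  rw [← hδ] at h5 h1 h2
  have hδ0 : 0 < δ := by rw [hδ]; positivity
  have hMδ : M * δ < κ ^ (T ^ 5) := by
    rw [hδ, mul_div_assoc', div_lt_iff₀ (by positivity)]
    nlinarith
  obtain ⟨n, hnn⟩ : ∃ n : ℝ, n = (Fintype.card V : ℝ) := ⟨_, rfl⟩
  rw [← hnn] at h5 h1 h2 ⊢
  have hn1 : (1 : ℝ) / δ ≤ n := by
    have e : (1 : ℝ) / δ = (M + 1) / κ ^ (T ^ 5) := by rw [hδ, one_div, inv_div]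
    rw [e, hnn]
    refine (Nat.le_ceil _).trans ?_
    exact_mod_cast (Nat.le_succ _).trans hn
  have hn0 : 0 < n := by rw [hnn]; exact_mod_cast (Nat.succ_pos _).trans_le hn
  have hn1' : 1 ≤ δ * n := by
    rw [div_le_iff₀ hδ0] at hn1
    linarith
  by_contra hneg
  rw [not_le] at hneg
  have b1 := bl_card (V := V) (n := n) hnn.symm hn0 hT0 5 (S1 H)
  have b2 : n ^ (5 * T) * κ ^ (T ^ 5) ≤ ((Bl 5 T (S1 H)).card : ℝ) := by
    refine le_trans ?_ b1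
    refine mul_le_mul_of_nonneg_left ?_ (by positivity)
    refine pow_le_pow_left₀ hκ.le ?_ _
    rw [le_div_iff₀ (by positivity)]
    exact hneg.le
  have b3 : ((Bl 5 T (S1 H)).card : ℝ) ≤ (5 * T : ℝ) ^ 2 * n ^ (5 * T - 1) +
      ((5 * T : ℝ) ^ 5 * ((O5 H).card * n ^ (5 * T - 5)) +
      ((5 * T : ℝ) ^ (2 + (t + t)) * ((OC H (G1 t)).card * n ^ (5 * T - (2 + (t + t)))) +
      (5 * T : ℝ) ^ (2 + (t + t + t)) *
        ((OC H (G2 t)).card * n ^ (5 * T - (2 + (t + t + t)))))) := by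
    have h := cover1 (V := V) hT H
    have h' : (((Bl 5 T (S1 H)).card : ℕ) : ℝ) ≤ (((5 * T) ^ 2 * Fintype.card V ^ (5 * T - 1) +
      ((5 * T) ^ 5 * ((O5 H).card * Fintype.card V ^ (5 * T - 5)) +
      ((5 * T) ^ (2 + (t + t)) * ((OC H (G1 t)).card * Fintype.card V ^ (5 * T - (2 + (t + t)))) +
      (5 * T) ^ (2 + (t + t + t)) *
        ((OC H (G2 t)).card * Fintype.card V ^ (5 * T - (2 + (t + t + t)))))) : ℕ) : ℝ) := by
      exact_mod_cast h
    push_cast at h'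
    rw [← hnn] at h'
    exact h'
  have sp : ∀ k : ℕ, k ≤ 5 * T → n ^ k * n ^ (5 * T - k) = n ^ (5 * T) := fun k hk => by
    rw [← pow_add]; congr 1; omega
  have e0 : n ^ (5 * T - 1) ≤ δ * n ^ (5 * T) := by
    have h := sp 1 (by omega)
    rw [pow_one] at h
    rw [← h, ← mul_assoc]
    exact le_mul_of_one_le_left (by positivity) hn1'
  have eg : ∀ (k : ℕ) (c : ℝ), k ≤ 5 * T → c ≤ δ * n ^ k → c * n ^ (5 * T - k) ≤ δ * n ^ (5 * T) := by
    intro k c hk hc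
    rw [← sp k hk, ← mul_assoc]
    exact mul_le_mul_of_nonneg_right hc (by positivity)
  have t0 := mul_le_mul_of_nonneg_left e0 (by positivity : (0 : ℝ) ≤ (5 * T : ℝ) ^ 2)
  have t5 := mul_le_mul_of_nonneg_left (eg 5 _ (by omega) h5)
    (by positivity : (0 : ℝ) ≤ (5 * T : ℝ) ^ 5)
  have t1 := mul_le_mul_of_nonneg_left (eg _ _ (by omega) h1)
    (by positivity : (0 : ℝ) ≤ (5 * T : ℝ) ^ (2 + (t + t)))
  have t2 := mul_le_mul_of_nonneg_left (eg _ _ (by omega) h2)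
    (by positivity : (0 : ℝ) ≤ (5 * T : ℝ) ^ (2 + (t + t + t)))
  have b4 : ((Bl 5 T (S1 H)).card : ℝ) ≤ M * δ * n ^ (5 * T) := by
    rw [hM]
    nlinarith
  have b5 : M * δ * n ^ (5 * T) < κ ^ (T ^ 5) * n ^ (5 * T) :=
    mul_lt_mul_of_pos_right hMδ (by positivity)
  linarith [mul_comm (n ^ (5 * T)) (κ ^ (T ^ 5))]

end

end Pool.Agent.N443.PL
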