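import Pool.Agent.N443.PG.Coc
import Pool.Agent.N443.PL.Few1

/-! 4-graphs without the two patterns are close to cocycles. -/

set_option autoImplicit false
open Finset

namespace Pool.Agent.N443.PK
open Pool.Agent.N443.PL
open Pool.Agent.N443.PG (ins ins_eq cz cz_sub cz_even diff_le pick)

/-- number of five-sets with `j` edges -/
def fw {n : ℕ} (H : Finset (Finset (Fin n))) (j : ℕ) : ℕ :=
  ((powersetCard 5 (univ : Finset (Fin n))).filter fun S => ins H S = j).card

section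
variable {V : Type} [DecidableEq V]

theorem er5 {u v w r s : V} (uv : u ≠ v) (uw : u ≠ w) (ur : u ≠ r) (us : u ≠ s) (vw : v ≠ w)
    (vr : v ≠ r) (vs : v ≠ s) (wr : w ≠ r) (ws : w ≠ s) (rs : r ≠ s) :
    ({u, v, w, r, s} : Finset V).erase u = {v, w, r, s} ∧
    ({u, v, w, r, s} : Finset V).erase v = {u, w, r, s} ∧
    ({u, v, w, r, s} : Finset V).erase w = {u, v, r, s} ∧
    ({u, v, w, r, s} : Finset V).erase r = {u, v, w, s} ∧
    ({u, v, w, r, s} : Finset V).erase s = {u, v, w, r} := by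
  refine ⟨?_, ?_, ?_, ?_, ?_⟩ <;> ext z <;> simp only [mem_erase, mem_insert, mem_singleton] <;>
    grind

theorem im5 (x : Fin 5 → V) : univ.image x = {x 0, x 1, x 2, x 3, x 4} := by
  ext z
  simp only [mem_image, mem_univ, true_and, mem_insert, mem_singleton, Fin.exists_fin_succ,
    IsEmpty.exists_iff, or_false]
  constructor
  · rintro (h | h | h | h | h)
    · exact Or.inl h.symm
    · exact Or.inr (Or.inl h.symm)
    · exact Or.inr (Or.inr (Or.inl h.symm))
    · exact Or.inr (Or.inr (Or.inr (Or.inl h.symm)))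
    · exact Or.inr (Or.inr (Or.inr (Or.inr h.symm)))
  · rintro (h | h | h | h | h)
    · exact Or.inl h.symm
    · exact Or.inr (Or.inl h.symm)
    · exact Or.inr (Or.inr (Or.inl h.symm))
    · exact Or.inr (Or.inr (Or.inr (Or.inl h.symm)))
    · exact Or.inr (Or.inr (Or.inr (Or.inr h.symm)))

end

variable {n : ℕ}

theorem fw3_le (H : Finset (Finset (Fin n))) (hH : H ⊆ powersetCard 4 univ) :
    fw H 3 ≤ (S3 H).card := by
  classical
  unfold fw
  refine card_le_card_of_surjOn (fun x : Fin 5 → Fin n => univ.image x) ?_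
  intro P hP
  obtain ⟨hP1, hP2⟩ := mem_filter.mp (mem_coe.mp hP)
  have hPc := (mem_powersetCard.mp hP1).2
  have hn := ins_eq H hH P hPc
  rw [hP2] at hn
  set M := P.filter fun x => P.erase x ∈ H with hM
  obtain ⟨u, v, w, uv, uw, vw, hMe⟩ := card_eq_three.mp hn.symm
  have hR : (P \ M).card = 2 := by
    rw [card_sdiff_of_subset (filter_subset _ _), hPc, ← hn]
  obtain ⟨r, s, rs, hRe⟩ := card_eq_two.mp hR
  have hu : u ∈ M := by rw [hMe]; simp
  have hv : v ∈ M := by rw [hMe]; simp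
  have hw : w ∈ M := by rw [hMe]; simp
  have hr : r ∈ P \ M := by rw [hRe]; simp
  have hs : s ∈ P \ M := by rw [hRe]; simp
  have ne : ∀ {a b : Fin n}, a ∈ M → b ∈ P \ M → a ≠ b := fun h1 h2 h3 =>
    (mem_sdiff.mp h2).2 (h3 ▸ h1)
  have hPe : P = {u, v, w, r, s} := by
    have h1 : P = M ∪ (P \ M) := (union_sdiff_of_subset (filter_subset _ _)).symm
    rw [h1, hRe, hMe]
    ext z
    simp only [mem_union, mem_insert, mem_singleton]
    tauto
  obtain ⟨e1, e2, e3, e4, e5⟩ := er5 uv uw (ne hu hr) (ne hu hs) vw (ne hv hr) (ne hv hs) (ne hw hr)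
    (ne hw hs) rs
  rw [← hPe] at e1 e2 e3 e4 e5
  refine ⟨![u, v, w, r, s], mem_coe.mpr (mem_S3.mpr ⟨?_, ?_, ?_, ?_, ?_⟩), ?_⟩
  · have := (mem_filter.mp hu).2
    rw [e1] at this
    exact this
  · have := (mem_filter.mp hv).2
    rw [e2] at this
    exact this
  · have := (mem_filter.mp hw).2
    rw [e3] at this
    exact this
  · intro h
    refine (mem_sdiff.mp hr).2 (mem_filter.mpr ⟨(mem_sdiff.mp hr).1, ?_⟩)
    rw [e4]
    exact h
  · intro h
    refine (mem_sdiff.mp hs).2 (mem_filter.mpr ⟨(mem_sdiff.mp hs).1, ?_⟩)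
    rw [e5]
    exact h
  · change univ.image _ = P
    rw [im5, hPe]
    rfl

theorem o5_le (H : Finset (Finset (Fin n))) (hH : H ⊆ powersetCard 4 univ) :
    (O5 H).card ≤ 3125 * fw H 5 := by
  classical
  have hsub : (O5 H).image (fun x : Fin 5 → Fin n => univ.image x) ⊆
      (powersetCard 5 (univ : Finset (Fin n))).filter fun S => ins H S = 5 := by
    intro P hP
    obtain ⟨x, hx, rfl⟩ := mem_image.mp hP
    obtain ⟨hi, h0, h1, h2, h3, h4⟩ := mem_O5.mp hx
    have hc : (univ.image x).card = 5 := by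
      rw [card_image_of_injective _ hi, card_univ, Fintype.card_fin]
    refine mem_filter.mpr ⟨mem_powersetCard.mpr ⟨subset_univ _, hc⟩, ?_⟩
    rw [ins_eq H hH _ hc, filter_true_of_mem, hc]
    have ne : ∀ {i j : Fin 5}, i ≠ j → x i ≠ x j := fun h h' => h (hi h')
    obtain ⟨e1, e2, e3, e4, e5⟩ := er5 (ne (by decide : (0 : Fin 5) ≠ 1))
      (ne (by decide : (0 : Fin 5) ≠ 2)) (ne (by decide : (0 : Fin 5) ≠ 3))
      (ne (by decide : (0 : Fin 5) ≠ 4)) (ne (by decide : (1 : Fin 5) ≠ 2))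
      (ne (by decide : (1 : Fin 5) ≠ 3)) (ne (by decide : (1 : Fin 5) ≠ 4))
      (ne (by decide : (2 : Fin 5) ≠ 3)) (ne (by decide : (2 : Fin 5) ≠ 4))
      (ne (by decide : (3 : Fin 5) ≠ 4))
    intro z hz
    rw [im5] at hz ⊢
    simp only [mem_insert, mem_singleton] at hz
    rcases hz with rfl | rfl | rfl | rfl | rfl
    · rw [e1]; exact h0
    · rw [e2]; exact h1
    · rw [e3]; exact h2
    · rw [e4]; exact h3
    · rw [e5]; exact h4
  refine (card_le_mul_card_image (f := fun x : Fin 5 → Fin n => univ.image x) (O5 H) 3125 ?_).trans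
    (Nat.mul_le_mul_left _ (card_le_card hsub))
  intro P hP
  have hPc : P.card = 5 := (mem_powersetCard.mp (mem_filter.mp (hsub hP)).1).2
  refine (card_le_card (t := Fintype.piFinset fun _ : Fin 5 => P) ?_).trans (le_of_eq ?_)
  · intro x hx
    rw [Fintype.mem_piFinset]
    intro i
    rw [← (mem_filter.mp hx).2]
    exact mem_image_of_mem x (mem_univ i)
  · rw [Fintype.card_piFinset, prod_const, card_univ, Fintype.card_fin, hPc]
    norm_num

theorem fw1_le (H : Finset (Finset (Fin n))) (hH : H ⊆ powersetCard 4 univ) :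
    fw H 1 ≤ (S1 H).card := by
  classical
  unfold fw
  refine card_le_card_of_surjOn (fun x : Fin 5 → Fin n => univ.image x) ?_
  intro P hP
  obtain ⟨hP1, hP2⟩ := mem_filter.mp (mem_coe.mp hP)
  have hPc := (mem_powersetCard.mp hP1).2
  have hn := ins_eq H hH P hPc
  rw [hP2] at hn
  set M := P.filter fun x => P.erase x ∈ H with hM
  obtain ⟨u, hMe⟩ := card_eq_one.mp hn.symm
  have hR : (P \ M).card = 4 := by
    rw [card_sdiff_of_subset (filter_subset _ _), hPc, ← hn]
  obtain ⟨v, hv⟩ : (P \ M).Nonempty := card_pos.mp (by omega)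
  have hR3 : ((P \ M).erase v).card = 3 := by rw [card_erase_of_mem hv, hR]
  obtain ⟨w, r, s, wr, ws, rs, hRe⟩ := card_eq_three.mp hR3
  have hu : u ∈ M := by rw [hMe]; simp
  have hw' : w ∈ (P \ M).erase v := by rw [hRe]; simp
  have hr' : r ∈ (P \ M).erase v := by rw [hRe]; simp
  have hs' : s ∈ (P \ M).erase v := by rw [hRe]; simp
  have hw := mem_of_mem_erase hw'
  have hr := mem_of_mem_erase hr'
  have hs := mem_of_mem_erase hs'
  have vw := (ne_of_mem_erase hw').symm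
  have vr := (ne_of_mem_erase hr').symm
  have vs := (ne_of_mem_erase hs').symm
  have ne : ∀ {a b : Fin n}, a ∈ M → b ∈ P \ M → a ≠ b := fun h1 h2 h3 =>
    (mem_sdiff.mp h2).2 (h3 ▸ h1)
  have hPe : P = {u, v, w, r, s} := by
    have h1 : P = M ∪ (P \ M) := (union_sdiff_of_subset (filter_subset _ _)).symm
    have h2 : P \ M = insert v ((P \ M).erase v) := (insert_erase hv).symm
    rw [h1, h2, hRe, hMe]
    ext z
    simp only [mem_union, mem_insert, mem_singleton]
  obtain ⟨e1, e2, e3, e4, e5⟩ := er5 (ne hu hv) (ne hu hw) (ne hu hr) (ne hu hs) vw vr vs wr ws rs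
  rw [← hPe] at e1 e2 e3 e4 e5
  have no : ∀ {a : Fin n}, a ∈ P \ M → P.erase a ∉ H := fun h1 h2 =>
    (mem_sdiff.mp h1).2 (mem_filter.mpr ⟨(mem_sdiff.mp h1).1, h2⟩)
  refine ⟨![u, v, w, r, s], mem_coe.mpr (mem_S1.mpr ⟨?_, ?_, ?_, ?_, ?_⟩), ?_⟩
  · have := (mem_filter.mp hu).2
    rw [e1] at this
    exact this
  · have := no hv
    rw [e2] at this
    exact this
  · have := no hw
    rw [e3] at this
    exact this
  · have := no hr
    rw [e4] at this
    exact this
  · have := no hs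
    rw [e5] at this
    exact this
  · change univ.image _ = P
    rw [im5, hPe]
    rfl

theorem odd_count (H : Finset (Finset (Fin n))) (hH : H ⊆ powersetCard 4 univ) :
    ((powersetCard 5 (univ : Finset (Fin n))).filter fun S => ¬ Even (ins H S)).card ≤
      fw H 1 + fw H 3 + fw H 5 := by
  classical
  unfold fw
  refine (card_le_card (t := ((powersetCard 5 (univ : Finset (Fin n))).filter fun S => ins H S = 1) ∪
    ((powersetCard 5 (univ : Finset (Fin n))).filter fun S => ins H S = 3) ∪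
    ((powersetCard 5 (univ : Finset (Fin n))).filter fun S => ins H S = 5)) ?_).trans
    ((card_union_le _ _).trans (Nat.add_le_add_right (card_union_le _ _) _))
  intro S hS
  obtain ⟨h1, h2⟩ := mem_filter.mp hS
  have h3 : ins H S ≤ 5 := by
    rw [ins_eq H hH S (mem_powersetCard.mp h1).2]
    exact (card_filter_le _ _).trans (mem_powersetCard.mp h1).2.le
  simp only [mem_union, mem_filter, h1, true_and]
  generalize ins H S = k at h2 h3
  interval_cases k
  · exact absurd (by decide) h2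
  · simp
  · exact absurd (by decide) h2
  · simp
  · exact absurd (by decide) h2
  · simp

/-- 4-graphs without the patterns are close to cocycles -/
theorem close (t : ℕ) (ε : ℝ) (hε : 0 < ε) : ∃ δ : ℝ, 0 < δ ∧ ∃ n0 : ℕ, ∀ n : ℕ, n0 ≤ n →
    ∀ H : Finset (Finset (Fin n)), H ⊆ powersetCard 4 univ → (fw H 5 : ℝ) ≤ δ * (n : ℝ) ^ 5 →
    ((OC H (G1 t)).card : ℝ) ≤ δ * (n : ℝ) ^ (2 + (t + t)) →
    ((OC H (G2 t)).card : ℝ) ≤ δ * (n : ℝ) ^ (2 + (t + t + t)) →
    ∃ C : Finset (Finset (Fin n)), C ⊆ powersetCard 4 univ ∧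
      (∀ S ∈ powersetCard 5 (univ : Finset (Fin n)), Even (ins C S)) ∧
      ((symmDiff H C).card : ℝ) ≤ ε * (n : ℝ) ^ 4 := by
  obtain ⟨κ, hκ⟩ : ∃ κ : ℝ, κ = ε / 15 := ⟨_, rfl⟩
  have hκ0 : 0 < κ := by rw [hκ]; positivity
  obtain ⟨δ, hδ, n0, h0⟩ := few t κ hκ0
  obtain ⟨δ', hδ', n0', h0'⟩ := few1 t κ hκ0
  obtain ⟨η, hη⟩ : ∃ η : ℝ, η = min (min (δ / 3125) (δ' / 3125)) κ := ⟨_, rfl⟩
  have q1 : η ≤ δ / 3125 := by rw [hη]; exact (min_le_left _ _).trans (min_le_left _ _)
  have q2 : η ≤ δ' / 3125 := by rw [hη]; exact (min_le_left _ _).trans (min_le_right _ _)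
  have q3 : η ≤ κ := by rw [hη]; exact min_le_right _ _
  have hη0 : 0 < η := by rw [hη]; exact lt_min (lt_min (by positivity) (by positivity)) hκ0
  refine ⟨η, hη0, max (max n0 n0') 1, fun n hn H hH h5 h1 h2 => ?_⟩
  have hn0 : n0 ≤ n := (le_max_left _ _).trans ((le_max_left _ _).trans hn)
  have hn0' : n0' ≤ n := (le_max_right _ _).trans ((le_max_left _ _).trans hn)
  have hn1 : 0 < n := (le_max_right _ _).trans hn
  have hnp : (0 : ℝ) < n := by exact_mod_cast hn1
  have hO5 : ((O5 H).card : ℝ) ≤ 3125 * (fw H 5 : ℝ) := by exact_mod_cast o5_le H hH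
  have k3 : (fw H 3 : ℝ) ≤ κ * (n : ℝ) ^ 5 := by
    refine le_trans (by exact_mod_cast fw3_le H hH) (?_ : ((S3 H).card : ℝ) ≤ _)
    have h := h0 (Fin n) H (by rw [Fintype.card_fin]; exact hn0)
    rw [Fintype.card_fin] at h
    refine h ?_ (h1.trans (mul_le_mul_of_nonneg_right (by linarith) (by positivity)))
      (h2.trans (mul_le_mul_of_nonneg_right (by linarith) (by positivity)))
    have h4 := mul_le_mul_of_nonneg_right q1 (by positivity : (0 : ℝ) ≤ (n : ℝ) ^ 5)
    have h6 : (3125 : ℝ) * (δ / 3125 * (n : ℝ) ^ 5) = δ * (n : ℝ) ^ 5 := by ring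
    linarith
  have k1 : (fw H 1 : ℝ) ≤ κ * (n : ℝ) ^ 5 := by
    refine le_trans (by exact_mod_cast fw1_le H hH) (?_ : ((S1 H).card : ℝ) ≤ _)
    have h := h0' (Fin n) H (by rw [Fintype.card_fin]; exact hn0')
    rw [Fintype.card_fin] at h
    refine h ?_ (h1.trans (mul_le_mul_of_nonneg_right (by linarith) (by positivity)))
      (h2.trans (mul_le_mul_of_nonneg_right (by linarith) (by positivity)))
    have h4 := mul_le_mul_of_nonneg_right q2 (by positivity : (0 : ℝ) ≤ (n : ℝ) ^ 5)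
    have h6 : (3125 : ℝ) * (δ' / 3125 * (n : ℝ) ^ 5) = δ' * (n : ℝ) ^ 5 := by ring
    linarith
  have k5 : (fw H 5 : ℝ) ≤ κ * (n : ℝ) ^ 5 :=
    h5.trans (mul_le_mul_of_nonneg_right q3 (by positivity))
  obtain ⟨v, hv⟩ := pick hn1 ((powersetCard 5 (univ : Finset (Fin n))).filter
    fun S => ¬ Even (ins H S)) (filter_subset _ _)
  refine ⟨cz H v 4, cz_sub H v, fun S hS => cz_even H v S hS, ?_⟩
  have a1 := diff_le H v (by norm_num : 0 < 4) hH
  have a2 := odd_count H hH
  have a3 : n * (symmDiff H (cz H v 4)).card ≤ 5 * (fw H 1 + fw H 3 + fw H 5) :=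
    (Nat.mul_le_mul_left n a1).trans (hv.trans (Nat.mul_le_mul_left 5 a2))
  have a4 : (n : ℝ) * ((symmDiff H (cz H v 4)).card : ℝ) ≤ 5 * ((fw H 1 : ℝ) + fw H 3 + fw H 5) := by
    exact_mod_cast a3
  have a5 : (n : ℝ) * ((symmDiff H (cz H v 4)).card : ℝ) ≤ (n : ℝ) * (ε * (n : ℝ) ^ 4) := by
    refine a4.trans ?_
    have : (n : ℝ) * (ε * (n : ℝ) ^ 4) = 5 * (κ * (n : ℝ) ^ 5 + κ * (n : ℝ) ^ 5 + κ * (n : ℝ) ^ 5) := by
      rw [hκ]; ring
    rw [this]
    linarith
  exact le_of_mul_le_mul_left a5 hnp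

end Pool.Agent.N443.PK
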