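import Pool.Agent.N443.PL.Ram

/-! Homogeneous blow-ups of five vertices in 4-graphs. -/

set_option autoImplicit false
open Finset

namespace Pool.Agent.N443.PL

/-- the parts of a sorted quadruple from its code -/
def dec (n : ℕ) (i : Fin 4) : Fin 5 :=
  if i.val < n % 5 then 0 else if i.val < n % 5 + n / 5 % 5 then 1 else
  if i.val < n % 5 + n / 5 % 5 + n / 25 % 5 then 2 else
  if i.val < n % 5 + n / 5 % 5 + n / 25 % 5 + n / 125 % 5 then 3 else 4

theorem dec_cod : ∀ a b c d : Fin 5, a ≤ b → b ≤ c → c ≤ d → ∀ i : Fin 4,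
    dec (5 ^ a.val + 5 ^ b.val + 5 ^ c.val + 5 ^ d.val) i = ![a, b, c, d] i := by decide +kernel

/-- position of the `i`-th vertex of part `a` -/
def pos {m : ℕ} (a : Fin 5) (i : Fin m) : Fin (5 * m) :=
  ⟨a.val * m + i.val, by
    have h1 := a.isLt
    have h2 := i.isLt
    nlinarith⟩

/-- the part of a position -/
def pt {m : ℕ} (p : Fin (5 * m)) : Fin 5 := ⟨p.val / m, Nat.div_lt_of_lt_mul (by
  have := p.isLt
  omega)⟩

theorem pt_pos {m : ℕ} (a : Fin 5) (i : Fin m) : pt (pos a i) = a := by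
  have hm : 0 < m := lt_of_le_of_lt (Nat.zero_le _) i.isLt
  apply Fin.ext
  change (a.val * m + i.val) / m = a.val
  rw [add_comm, Nat.add_mul_div_right _ _ hm, Nat.div_eq_of_lt i.isLt, zero_add]

theorem pos_mod {m : ℕ} (a : Fin 5) (i : Fin m) : (pos a i).val % m = i.val := by
  change (a.val * m + i.val) % m = i.val
  rw [add_comm, Nat.add_mul_mod_self_right, Nat.mod_eq_of_lt i.isLt]

theorem pos_inj {m : ℕ} {a b : Fin 5} {i j : Fin m} (h : pos a i = pos b j) : a = b ∧ i = j := by
  refine ⟨by rw [← pt_pos a i, h, pt_pos], Fin.ext ?_⟩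
  rw [← pos_mod a i, h, pos_mod]

theorem pt_mono {m : ℕ} {p q : Fin (5 * m)} (h : p ≤ q) : pt p ≤ pt q :=
  Nat.div_le_div_right h

/-- every large five-partite family of vertices contains a homogeneous one -/
theorem hom_ex (m : ℕ) : ∃ T : ℕ, 0 < T ∧ ∀ (V : Type) [DecidableEq V] (H : Finset (Finset V))
    (y : Fin 5 → Fin T → V), ∃ (χ : ℕ → Bool) (ζ : Fin 5 → Fin m → Fin T),
    (∀ a i b j, ζ a i = ζ b j → a = b ∧ i = j) ∧
    ∀ (a b c d : Fin 5) (i j k l : Fin m), i ≠ j → i ≠ k → i ≠ l → j ≠ k → j ≠ l → k ≠ l →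
      (({y a (ζ a i), y b (ζ b j), y c (ζ c k), y d (ζ d l)} : Finset V) ∈ H ↔
        χ (5 ^ a.val + 5 ^ b.val + 5 ^ c.val + 5 ^ d.val) = true) := by
  classical
  obtain ⟨N, hN⟩ := ram ((Fin 4 → Fin 5) → Bool) 4 (5 * m)
  obtain ⟨T, hT⟩ : ∃ T, T = max N 1 := ⟨_, rfl⟩
  refine ⟨T, by omega, fun V _ H y => ?_⟩
  obtain ⟨B, c, -, hB, hc⟩ := hN (Fin T) univ
    (by rw [card_univ, Fintype.card_fin, hT]; exact le_max_left _ _)
    (fun J s => if h : J.card = 4 then
      decide ((univ.image fun i : Fin 4 => y (s i) (J.orderEmbOfFin h i)) ∈ H) else false)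
  let β : Fin (5 * m) ↪o Fin T := B.orderEmbOfFin hB
  have hP : ∀ e : Fin 4 ↪o Fin (5 * m),
      ((univ.image fun i : Fin 4 => y (pt (e i)) (β (e i))) ∈ H ↔
        c (fun i => pt (e i)) = true) := by
    intro e
    set J : Finset (Fin T) := univ.map (e.trans β).toEmbedding with hJ
    have hJc : J.card = 4 := by rw [hJ, card_map, card_univ, Fintype.card_fin]
    have hJB : J ⊆ B := by
      intro x hx
      obtain ⟨i, -, rfl⟩ := mem_map.mp hx
      exact orderEmbOfFin_mem B hB (e i)
    have h1 := hc J hJB hJc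
    have h2 : ∀ i, J.orderEmbOfFin hJc i = β (e i) := by
      intro i
      have h3 : (fun i => β (e i)) = J.orderEmbOfFin hJc :=
        orderEmbOfFin_unique hJc (fun i => mem_map.mpr ⟨i, mem_univ _, rfl⟩)
          (fun i j hij => β.strictMono (e.strictMono hij))
      exact (congrFun h3 i).symm
    have h4 := congrFun h1 fun i => pt (e i)
    simp only [dif_pos hJc, h2] at h4
    rw [← h4, decide_eq_true_iff]
  refine ⟨fun n => c (dec n), fun a i => β (pos a i), fun a i b j h => pos_inj (β.injective h), ?_⟩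
  intro a1 a2 a3 a4 i1 i2 i3 i4 h12 h13 h14 h23 h24 h34
  let f : Fin 4 → Fin (5 * m) := ![pos a1 i1, pos a2 i2, pos a3 i3, pos a4 i4]
  have hne : ∀ {a b : Fin 5} {i j : Fin m}, i ≠ j → pos a i ≠ pos b j := fun h h' =>
    h (pos_inj h').2
  have hf : Function.Injective f := by
    intro u v huv
    fin_cases u <;> fin_cases v <;> first
      | rfl
      | exact absurd huv (hne h12)
      | exact absurd huv (hne h13)
      | exact absurd huv (hne h14)
      | exact absurd huv (hne h23)
      | exact absurd huv (hne h24)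
      | exact absurd huv (hne h34)
      | exact absurd huv (hne h12.symm)
      | exact absurd huv (hne h13.symm)
      | exact absurd huv (hne h14.symm)
      | exact absurd huv (hne h23.symm)
      | exact absurd huv (hne h24.symm)
      | exact absurd huv (hne h34.symm)
  have hPc : (univ.image f).card = 4 := by
    rw [card_image_of_injective _ hf, card_univ, Fintype.card_fin]
  let e : Fin 4 ↪o Fin (5 * m) := (univ.image f).orderEmbOfFin hPc
  have he : univ.image e = univ.image f := by
    have h := image_orderEmbOfFin_univ (univ.image f) hPc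
    exact h
  have s1 : (univ.image fun i : Fin 4 => y (pt (e i)) (β (e i))) =
      ({y a1 (β (pos a1 i1)), y a2 (β (pos a2 i2)), y a3 (β (pos a3 i3)),
        y a4 (β (pos a4 i4))} : Finset V) := by
    have h1 : (univ.image fun i : Fin 4 => y (pt (e i)) (β (e i))) =
        (univ.image e).image fun p => y (pt p) (β p) := by
      rw [image_image]
      rfl
    have h2 : ((univ.image f).image fun p => y (pt p) (β p)) =
        univ.image fun i => y (pt (f i)) (β (f i)) := by
      rw [image_image]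
      rfl
    rw [h1, he, h2]
    ext x
    simp only [mem_image, mem_univ, true_and, Fin.exists_fin_succ, mem_insert, mem_singleton]
    simp only [f, IsEmpty.exists_iff, or_false, Matrix.cons_val_zero,
      Matrix.cons_val_succ, pt_pos]
    constructor
    · rintro (h | h | h | h)
      · exact Or.inl h.symm
      · exact Or.inr (Or.inl h.symm)
      · exact Or.inr (Or.inr (Or.inl h.symm))
      · exact Or.inr (Or.inr (Or.inr h.symm))
    · rintro (h | h | h | h)
      · exact Or.inl h.symm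
      · exact Or.inr (Or.inl h.symm)
      · exact Or.inr (Or.inr (Or.inl h.symm))
      · exact Or.inr (Or.inr (Or.inr h.symm))
  have s2 : ∑ i : Fin 4, 5 ^ (pt (e i)).val =
      5 ^ a1.val + 5 ^ a2.val + 5 ^ a3.val + 5 ^ a4.val := by
    have h1 : ∑ i : Fin 4, 5 ^ (pt (e i)).val = ∑ p ∈ univ.image e, 5 ^ (pt p).val := by
      rw [sum_image fun x _ y _ h => e.injective h]
    have h2 : ∑ p ∈ univ.image f, 5 ^ (pt p).val = ∑ i : Fin 4, 5 ^ (pt (f i)).val := by
      rw [sum_image fun x _ y _ h => hf h]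
    rw [h1, he, h2, Fin.sum_univ_four]
    change 5 ^ (pt (pos a1 i1)).val + 5 ^ (pt (pos a2 i2)).val + 5 ^ (pt (pos a3 i3)).val +
      5 ^ (pt (pos a4 i4)).val = _
    rw [pt_pos, pt_pos, pt_pos, pt_pos]
  have s3 : dec (5 ^ a1.val + 5 ^ a2.val + 5 ^ a3.val + 5 ^ a4.val) = fun i => pt (e i) := by
    rw [← s2, Fin.sum_univ_four]
    funext i
    have hm : ∀ u v : Fin 4, u ≤ v → pt (e u) ≤ pt (e v) := fun u v h => pt_mono (e.monotone h)
    rw [dec_cod (pt (e 0)) (pt (e 1)) (pt (e 2)) (pt (e 3)) (hm 0 1 (by decide))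
      (hm 1 2 (by decide)) (hm 2 3 (by decide)) i]
    fin_cases i <;> rfl
  have h5 := hP e
  rw [s1] at h5
  change _ ↔ c (dec _) = true
  rw [s3]
  exact h5

end Pool.Agent.N443.PL
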