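import Mathlib

/-! The finite case analysis (generated). -/

set_option autoImplicit false

namespace Pool.Agent.N443.PL

theorem tt {b : Bool} (h : b = false → False) : b = true := by
  cases b
  · exact absurd rfl h
  · rfl

theorem ff {b : Bool} (h : b = true → False) : b = false := by
  cases b
  · rfl
  · exact absurd rfl h

theorem tf (b : Bool) : b = true ∨ b = false := by cases b <;> simp

/-- the code of four parts -/
def cod (a b c d : Fin 5) : ℕ := 5 ^ a.val + 5 ^ b.val + 5 ^ c.val + 5 ^ d.val

theorem tree (χ : ℕ → Bool)
    (k5 : ∀ a b c d e : Fin 5, χ (cod b c d e) = true → χ (cod a c d e) = true →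
      χ (cod a b d e) = true → χ (cod a b c e) = true → χ (cod a b c d) = true → False)
    (f1 : ∀ a b c d : Fin 5, χ (cod a b c c) = true → χ (cod a b d d) = false →
      χ (cod a b c d) = false → False)
    (f2 : ∀ a b c d e : Fin 5, χ (cod a b c c) = false → χ (cod a b d d) = false →
      χ (cod a b e e) = false → χ (cod a b c d) = true → χ (cod a b c e) = false →
      χ (cod a b d e) = false → False)
    (h780 : χ 780 = true)
    (h776 : χ 776 = true)
    (h756 : χ 756 = true)
    (h656 : χ 656 = false)
    (h156 : χ 156 = false) : False := by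
  have h20 : χ 20 = false := ff fun h => k5 1 1 1 1 1 h h h h h
  have h100 : χ 100 = false := ff fun h => k5 2 2 2 2 2 h h h h h
  rcases tf (χ 36) with h36 | h36
  · have h276 : χ 276 = true := tt fun h => f1 0 2 1 3 h36 h h156
    rcases tf (χ 32) with h32 | h32
    · have h12 : χ 12 = false := ff fun h => k5 0 0 1 1 2 h36 h36 h32 h32 h
      have h280 : χ 280 = true := tt fun h => f1 1 2 0 3 h32 h h156
      rcases tf (χ 80) with h80 | h80
      · have h60 : χ 60 = false := ff fun h => k5 1 1 2 2 2 h80 h80 h h h
        have h40 : χ 40 = true := tt fun h => f1 1 2 2 1 h80 h h60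
        have h16 : χ 16 = false := ff fun h => k5 0 1 1 1 2 h40 h36 h36 h36 h
        rcases tf (χ 140) with h140 | h140
        · have h160 : χ 160 = false := ff fun h => k5 1 1 1 2 3 h h h h140 h40
          have h260 : χ 260 = false := ff fun h => k5 1 1 1 3 3 h h h h140 h140
          have h136 : χ 136 = true := tt fun h => f2 1 1 0 2 3 h12 h60 h260 h36 h h160
          have h380 : χ 380 = true := tt fun h => f1 1 3 1 3 h140 h h260
          have h152 : χ 152 = false := ff fun h => f1 2 3 0 1 h h160 h156
          have h28 : χ 28 = true := tt fun h => f1 0 2 3 0 h276 h h152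
          have h176 : χ 176 = true := tt fun h => f1 0 3 1 2 h136 h h156
          have h128 : χ 128 = true := tt fun h => f1 0 3 2 0 h176 h h152
          have h52 : χ 52 = false := ff fun h => k5 0 0 0 2 2 h h h h28 h28
          have h252 : χ 252 = false := ff fun h => k5 0 0 0 3 3 h h h h128 h128
          have h76 : χ 76 = true := tt fun h => f1 0 2 0 2 h28 h h52
          have h376 : χ 376 = true := tt fun h => f1 0 3 0 3 h128 h h252
          have h56 : χ 56 = false := ff fun h => k5 0 1 2 2 2 h80 h76 h h h
          have h256 : χ 256 = false := ff fun h => k5 0 1 3 3 3 h380 h376 h h h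
          have h1256 : χ 1256 = true := tt fun h => f2 0 1 3 4 2 h256 h h56 h756 h156 h656
          exact f1 0 1 4 2 h1256 h56 h656
        · have h260 : χ 260 = false := ff fun h => f1 1 1 3 1 h h20 h140
          have h136 : χ 136 = false := ff fun h => f2 1 1 0 3 1 h12 h260 h20 h h16 h140
          have h160 : χ 160 = true := tt fun h => f2 1 1 1 2 3 h20 h60 h260 h40 h140 h
          have h132 : χ 132 = false := ff fun h => f1 1 3 0 1 h h140 h136
          have h180 : χ 180 = true := tt fun h => f2 1 3 1 2 0 h140 h h132 h160 h136 h156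
          exact f1 1 3 2 0 h180 h132 h156
      · have h180 : χ 180 = true := tt fun h => f1 1 2 3 2 h280 h80 h
        have h60 : χ 60 = false := ff fun h => f1 2 2 1 2 h h100 h80
        have h300 : χ 300 = false := ff fun h => k5 1 2 2 3 3 h h280 h280 h180 h180
        have h40 : χ 40 = false := ff fun h => f1 1 2 1 2 h h80 h60
        have h160 : χ 160 = true := tt fun h => f1 1 2 3 1 h280 h40 h
        have h200 : χ 200 = true := tt fun h => f2 2 2 1 3 2 h60 h300 h100 h180 h80 h
        have h400 : χ 400 = true := tt fun h => f1 2 3 2 3 h200 h h300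
        have h260 : χ 260 = false := ff fun h => k5 1 1 2 3 3 h280 h280 h h160 h160
        have h380 : χ 380 = false := ff fun h => k5 1 2 3 3 3 h400 h h280 h280 h280
        have h140 : χ 140 = true := tt fun h => f2 1 1 2 3 1 h60 h260 h20 h160 h40 h
        exact f1 1 3 1 3 h140 h380 h260
    · have h280 : χ 280 = false := ff fun h => f1 1 2 3 0 h h32 h156
      have h1280 : χ 1280 = true := tt fun h => f2 1 2 3 4 0 h280 h h32 h780 h156 h656
      exact f1 1 2 4 0 h1280 h32 h656
  · have h276 : χ 276 = false := ff fun h => f1 0 2 3 1 h h36 h156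
    have h1276 : χ 1276 = true := tt fun h => f2 0 2 3 4 1 h276 h h36 h776 h156 h656
    exact f1 0 2 4 1 h1276 h36 h656

end Pool.Agent.N443.PL
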