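import Pool.Agent.N443.PL.Hom
import Pool.Agent.N443.PL.Tree

/-! Every large blow-up of a five-set with three edges contains one of the patterns. -/

set_option autoImplicit false
open Finset

namespace Pool.Agent.N443.PL

variable {V : Type} [DecidableEq V]

/-- five vertices all of whose quadruples are edges -/
def Q5 (H : Finset (Finset V)) (w : Fin 5 → V) : Prop :=
  Function.Injective w ∧ ({w 1, w 2, w 3, w 4} : Finset V) ∈ H ∧ ({w 0, w 2, w 3, w 4} : Finset V) ∈ H ∧
    ({w 0, w 1, w 3, w 4} : Finset V) ∈ H ∧ ({w 0, w 1, w 2, w 4} : Finset V) ∈ H ∧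
    ({w 0, w 1, w 2, w 3} : Finset V) ∈ H

/-- the vertices `w (inr j)` induce a copy of `F` in the pair-link of the first two vertices -/
def Cp (H : Finset (Finset V)) {J : Type} (F : SimpleGraph J) (w : Fin 2 ⊕ J → V) : Prop :=
  Function.Injective w ∧ ∀ j k, j ≠ k →
    (F.Adj j k ↔ ({w (Sum.inl 0), w (Sum.inl 1), w (Sum.inr j), w (Sum.inr k)} : Finset V) ∈ H)

/-- the five vertices span exactly three edges, which miss the first three vertices -/
def X3 (H : Finset (Finset V)) (x : Fin 5 → V) : Prop :=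
  ({x 1, x 2, x 3, x 4} : Finset V) ∈ H ∧ ({x 0, x 2, x 3, x 4} : Finset V) ∈ H ∧
    ({x 0, x 1, x 3, x 4} : Finset V) ∈ H ∧ ({x 0, x 1, x 2, x 4} : Finset V) ∉ H ∧
    ({x 0, x 1, x 2, x 3} : Finset V) ∉ H

/-- a homogeneous family -/
def Hm (H : Finset (Finset V)) {m T : ℕ} (y : Fin 5 → Fin T → V) (χ : ℕ → Bool)
    (ζ : Fin 5 → Fin m → Fin T) : Prop :=
  ∀ (a b c d : Fin 5) (i j k l : Fin m), i ≠ j → i ≠ k → i ≠ l → j ≠ k → j ≠ l → k ≠ l →
      (({y a (ζ a i), y b (ζ b j), y c (ζ c k), y d (ζ d l)} : Finset V) ∈ H ↔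
        χ (cod a b c d) = true)

theorem occ_gen {H : Finset (Finset V)} {m T : ℕ} {y : Fin 5 → Fin T → V} {χ : ℕ → Bool}
    {ζ : Fin 5 → Fin m → Fin T} (hζ : ∀ a i b j, ζ a i = ζ b j → a = b ∧ i = j)
    (hy : ∀ i a j b, y i a = y j b → i = j ∧ a = b) (hm : Hm H y χ ζ) {J : Type} [Fintype J]
    (hJ : 2 + Fintype.card J ≤ m) (F : SimpleGraph J) (a b : Fin 5) (P : J → Fin 5)
    (hF : ∀ j k, j ≠ k → (F.Adj j k ↔ χ (cod a b (P j) (P k)) = true)) :
    ∃ e : Fin 2 ⊕ J → Fin 5 × Fin T, Function.Injective e ∧ Cp H F fun q => y (e q).1 (e q).2 := by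
  classical
  obtain ⟨ix⟩ : Nonempty ((Fin 2 ⊕ J) ↪ Fin m) := by
    refine Function.Embedding.nonempty_of_card_le ?_
    rw [Fintype.card_sum, Fintype.card_fin, Fintype.card_fin]
    exact hJ
  let pp : Fin 2 ⊕ J → Fin 5 := Sum.elim ![a, b] P
  let e : Fin 2 ⊕ J → Fin 5 × Fin T := fun q => (pp q, ζ (pp q) (ix q))
  have he : Function.Injective e := by
    intro q q' h
    exact ix.injective (hζ _ _ _ _ (Prod.mk.inj h).2).2
  refine ⟨e, he, ?_, ?_⟩
  · intro q q' h
    have h1 := hy _ _ _ _ h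
    exact he (Prod.ext h1.1 h1.2)
  · intro j k hjk
    have hne : ∀ {q q' : Fin 2 ⊕ J}, q ≠ q' → ix q ≠ ix q' := fun h h' => h (ix.injective h')
    have h1 := hm a b (P j) (P k) (ix (Sum.inl 0)) (ix (Sum.inl 1)) (ix (Sum.inr j))
      (ix (Sum.inr k)) (hne (by simp)) (hne (by simp)) (hne (by simp)) (hne (by simp))
      (hne (by simp)) (hne (by simpa using hjk))
    rw [hF j k hjk]
    exact h1.symm

/-- a clique of `t` vertices and `t` isolated vertices -/
def G1 (t : ℕ) : SimpleGraph (Fin t ⊕ Fin t) := (⊤ : SimpleGraph (Fin t)) ⊕g (⊥ : SimpleGraph (Fin t))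

/-- a complete bipartite graph with `t` vertices in each part, and `t` isolated vertices -/
def G2 (t : ℕ) : SimpleGraph ((Fin t ⊕ Fin t) ⊕ Fin t) :=
  (completeBipartiteGraph (Fin t) (Fin t)) ⊕g (⊥ : SimpleGraph (Fin t))

theorem bf {b : Bool} (h : b = false) : ¬ b = true := by rw [h]; simp

/-- every large blow-up of a five-set with three edges contains one of the patterns -/
theorem occ (t : ℕ) : ∃ T : ℕ, 0 < T ∧ 3 * t + 5 ≤ 5 * T ∧ ∀ (V : Type) [DecidableEq V]
    (H : Finset (Finset V)) (y : Fin 5 → Fin T → V), (∀ i a j b, y i a = y j b → i = j ∧ a = b) →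
    (∀ f : Fin 5 → Fin T, X3 H fun i => y i (f i)) →
    (∃ e : Fin 5 → Fin 5 × Fin T, Function.Injective e ∧ Q5 H fun q => y (e q).1 (e q).2) ∨
    (∃ e : Fin 2 ⊕ (Fin t ⊕ Fin t) → Fin 5 × Fin T, Function.Injective e ∧
      Cp H (G1 t) fun q => y (e q).1 (e q).2) ∨
    (∃ e : Fin 2 ⊕ ((Fin t ⊕ Fin t) ⊕ Fin t) → Fin 5 × Fin T, Function.Injective e ∧
      Cp H (G2 t) fun q => y (e q).1 (e q).2) := by
  obtain ⟨T, hT0, hT⟩ := hom_ex (3 * t + 5)
  have hTm : 3 * t + 5 ≤ T := by
    obtain ⟨χ, ζ, hζ, -⟩ := hT (Fin 5 × Fin T) ∅ fun i a => (i, a)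
    have h1 : Function.Injective (ζ 0) := fun i j h => (hζ 0 i 0 j h).2
    have h2 := Fintype.card_le_of_injective _ h1
    rw [Fintype.card_fin, Fintype.card_fin] at h2
    exact h2
  refine ⟨T, hT0, by omega, fun V _ H y hy hx => ?_⟩
  obtain ⟨χ, ζ, hζ, hm⟩ := hT V H y
  have hm' : Hm H y χ ζ := hm
  by_contra hcon
  rw [not_or, not_or] at hcon
  obtain ⟨n5, n1, n2⟩ := hcon
  let u : Fin 5 → Fin (3 * t + 5) := fun i => ⟨i.val, by omega⟩
  have hu : ∀ {i j : Fin 5}, i ≠ j → u i ≠ u j := fun h h' => h (Fin.ext (Fin.mk.inj_iff.mp h'))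
  have ed : ∀ (a b c d : Fin 5) {i j k l : Fin 5}, i ≠ j → i ≠ k → i ≠ l → j ≠ k → j ≠ l → k ≠ l →
      (({y a (ζ a (u i)), y b (ζ b (u j)), y c (ζ c (u k)), y d (ζ d (u l))} : Finset V) ∈ H ↔
        χ (cod a b c d) = true) := fun a b c d i j k l h1 h2 h3 h4 h5 h6 =>
    hm a b c d (u i) (u j) (u k) (u l) (hu h1) (hu h2) (hu h3) (hu h4) (hu h5) (hu h6)
  have hX := hx fun i => ζ i (u i)
  obtain ⟨x0, x1, x2, x3, x4⟩ := hX
  refine tree χ ?_ ?_ ?_ ((ed 1 2 3 4 (by decide) (by decide) (by decide) (by decide) (by decide)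
      (by decide)).mp x0)
    ((ed 0 2 3 4 (by decide) (by decide) (by decide) (by decide) (by decide) (by decide)).mp x1)
    ((ed 0 1 3 4 (by decide) (by decide) (by decide) (by decide) (by decide) (by decide)).mp x2)
    (ff fun h => x3 ((ed 0 1 2 4 (by decide) (by decide) (by decide) (by decide) (by decide)
      (by decide)).mpr h))
    (ff fun h => x4 ((ed 0 1 2 3 (by decide) (by decide) (by decide) (by decide) (by decide)
      (by decide)).mpr h))
  · intro a b c d e h0 h1 h2 h3 h4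
    refine n5 ⟨fun i => (![a, b, c, d, e] i, ζ (![a, b, c, d, e] i) (u i)), ?_, ?_, ?_, ?_, ?_, ?_, ?_⟩
    · intro i j h
      by_contra hne
      exact hu hne (hζ _ _ _ _ (Prod.mk.inj h).2).2
    · intro i j h
      by_contra hne
      have h5 := hy _ _ _ _ h
      exact hu hne (hζ _ _ _ _ h5.2).2
    · exact (ed b c d e (by decide) (by decide) (by decide) (by decide) (by decide) (by decide)).mpr h0
    · exact (ed a c d e (by decide) (by decide) (by decide) (by decide) (by decide) (by decide)).mpr h1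
    · exact (ed a b d e (by decide) (by decide) (by decide) (by decide) (by decide) (by decide)).mpr h2
    · exact (ed a b c e (by decide) (by decide) (by decide) (by decide) (by decide) (by decide)).mpr h3
    · exact (ed a b c d (by decide) (by decide) (by decide) (by decide) (by decide) (by decide)).mpr h4
  · intro a b c d h1 h2 h3
    refine n1 (occ_gen hζ hy hm' (by simp; omega) (G1 t) a b (Sum.elim (fun _ => c) fun _ => d) ?_)
    have h3' : χ (cod a b d c) = false := by
      have e : cod a b d c = cod a b c d := by unfold cod; ring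
      rw [e]; exact h3
    rintro (j | j) (k | k) hjk
    · exact iff_of_true (by simpa [G1, SimpleGraph.sum] using hjk) h1
    · exact iff_of_false (by simp [G1, SimpleGraph.sum]) (bf h3)
    · exact iff_of_false (by simp [G1, SimpleGraph.sum]) (bf h3')
    · exact iff_of_false (by simp [G1, SimpleGraph.sum]) (bf h2)
  · intro a b c d e h1 h2 h3 h4 h5 h6
    refine n2 (occ_gen hζ hy hm' (by simp; omega) (G2 t) a b
      (Sum.elim (Sum.elim (fun _ => c) fun _ => d) fun _ => e) ?_)
    have sw : ∀ a b c d : Fin 5, cod a b d c = cod a b c d := fun a b c d => by unfold cod; ring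
    have h4' : χ (cod a b d c) = true := by rw [sw]; exact h4
    have h5' : χ (cod a b e c) = false := by rw [sw]; exact h5
    have h6' : χ (cod a b e d) = false := by rw [sw]; exact h6
    rintro ((j | j) | j) ((k | k) | k) hjk
    · exact iff_of_false (by simp [G2, SimpleGraph.sum]) (bf h1)
    · exact iff_of_true (by simp [G2, SimpleGraph.sum]) h4
    · exact iff_of_false (by simp [G2, SimpleGraph.sum]) (bf h5)
    · exact iff_of_true (by simp [G2, SimpleGraph.sum]) h4'
    · exact iff_of_false (by simp [G2, SimpleGraph.sum]) (bf h2)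
    · exact iff_of_false (by simp [G2, SimpleGraph.sum]) (bf h6)
    · exact iff_of_false (by simp [G2, SimpleGraph.sum]) (bf h5')
    · exact iff_of_false (by simp [G2, SimpleGraph.sum]) (bf h6')
    · exact iff_of_false (by simp [G2, SimpleGraph.sum]) (bf h3)

end Pool.Agent.N443.PL
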