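import Pool.Agent.W846.F2.Lower
import Pool.Agent.N443.PL.Occ

/-! The construction has no induced `K_2 ∪ 2K_1` in its pair-links. -/

set_option autoImplicit false
open Finset

namespace Pool.Agent.N443.PL
open Pool.Agent.W846.F2 (cel gr gr_free gr_uniform)

variable {V : Type} [Fintype V] [DecidableEq V]

/-- membership as a number -/
def inn (A : Finset V) (x : V) : ℕ := if x ∈ A then 1 else 0

theorem card_inter4 (A : Finset V) {p q x y : V} (h1 : p ≠ q) (h2 : p ≠ x) (h3 : p ≠ y)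
    (h4 : q ≠ x) (h5 : q ≠ y) (h6 : x ≠ y) :
    (({p, q, x, y} : Finset V) ∩ A).card = inn A p + (inn A q + (inn A x + inn A y)) := by
  rw [← filter_mem_eq_inter, card_filter, sum_insert (by simp [h1, h2, h3]),
    sum_insert (by simp [h4, h5]), sum_insert (by simp [h6]), sum_singleton]
  rfl

/-- cells as numbers -/
def dd (A : Finset V) (D : Finset (V × V)) (u v : V) : ℕ :=
  if u ∈ A ∧ v ∉ A ∧ (u, v) ∈ D then 1 else 0

theorem cel_sum (A : Finset V) (D : Finset (V × V)) (e : Finset V) :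
    cel A D e = ∑ u ∈ e, ∑ v ∈ e, dd A D u v := by
  have e1 : e ∩ A = e.filter fun u => u ∈ A := by ext z; simp
  have e2 : e \ A = e.filter fun u => u ∉ A := by ext z; simp
  unfold cel
  rw [← filter_mem_eq_inter, card_filter, sum_product, e1, sum_filter]
  refine sum_congr rfl fun u _ => ?_
  by_cases hu : u ∈ A
  · rw [if_pos hu, e2, sum_filter]
    refine sum_congr rfl fun v _ => ?_
    by_cases hv : v ∈ A
    · simp [dd, hv]
    · simp [dd, hu, hv]
  · rw [if_neg hu]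
    symm
    exact sum_eq_zero fun v _ => by simp [dd, hu]

theorem cel4 (A : Finset V) (D : Finset (V × V)) {p q x y : V} (h1 : p ≠ q) (h2 : p ≠ x)
    (h3 : p ≠ y) (h4 : q ≠ x) (h5 : q ≠ y) (h6 : x ≠ y) : cel A D {p, q, x, y} =
      (dd A D p p + (dd A D p q + (dd A D p x + dd A D p y))) +
      ((dd A D q p + (dd A D q q + (dd A D q x + dd A D q y))) +
      ((dd A D x p + (dd A D x q + (dd A D x x + dd A D x y))) +
      (dd A D y p + (dd A D y q + (dd A D y x + dd A D y y))))) := by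
  have hs : ∀ f : V → ℕ, ∑ v ∈ ({p, q, x, y} : Finset V), f v = f p + (f q + (f x + f y)) := by
    intro f
    rw [sum_insert (by simp [h1, h2, h3]), sum_insert (by simp [h4, h5]),
      sum_insert (by simp [h6]), sum_singleton]
  rw [cel_sum, hs, hs, hs, hs, hs]

theorem mem4 (A : Finset V) (D : Finset (V × V)) {p q x y : V} (h1 : p ≠ q) (h2 : p ≠ x)
    (h3 : p ≠ y) (h4 : q ≠ x) (h5 : q ≠ y) (h6 : x ≠ y) : ({p, q, x, y} : Finset V) ∈ gr A D ↔
      (inn A p + (inn A q + (inn A x + inn A y)) = 1 ∨ inn A p + (inn A q + (inn A x + inn A y)) = 3 ∨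
        (inn A p + (inn A q + (inn A x + inn A y)) = 2 ∧ Odd (cel A D {p, q, x, y}))) := by
  unfold gr
  rw [mem_filter, card_inter4 A h1 h2 h3 h4 h5 h6]
  have hc : ({p, q, x, y} : Finset V) ∈ powersetCard 4 (univ : Finset V) := by
    rw [mem_powersetCard]
    exact ⟨subset_univ _, by
      rw [card_insert_of_notMem (by simp [h1, h2, h3]), card_insert_of_notMem (by simp [h4, h5]),
        card_insert_of_notMem (by simp [h6]), card_singleton]⟩
  simp only [hc, true_and]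

/-- the pair-links of the construction have no induced `K_2 ∪ 2K_1` -/
theorem no_k2 (A : Finset V) (D : Finset (V × V)) {p q a b c d : V} (h : p ≠ q) (pa : p ≠ a)
    (pb : p ≠ b) (pc : p ≠ c) (pd : p ≠ d) (qa : q ≠ a) (qb : q ≠ b) (qc : q ≠ c) (qd : q ≠ d)
    (ab : a ≠ b) (ac : a ≠ c) (ad : a ≠ d) (bc : b ≠ c) (cd : c ≠ d)
    (eab : ({p, q, a, b} : Finset V) ∈ gr A D) (eac : ({p, q, a, c} : Finset V) ∉ gr A D)
    (ead : ({p, q, a, d} : Finset V) ∉ gr A D) (ebc : ({p, q, b, c} : Finset V) ∉ gr A D)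
    (ecd : ({p, q, c, d} : Finset V) ∉ gr A D) : False := by
  rw [mem4 A D h pa pb qa qb ab, cel4 A D h pa pb qa qb ab] at eab
  rw [mem4 A D h pa pc qa qc ac, cel4 A D h pa pc qa qc ac] at eac
  rw [mem4 A D h pa pd qa qd ad] at ead
  rw [mem4 A D h pb pc qb qc bc, cel4 A D h pb pc qb qc bc] at ebc
  rw [mem4 A D h pc pd qc qd cd] at ecd
  by_cases ip : p ∈ A <;> by_cases iq : q ∈ A <;> by_cases ia : a ∈ A <;> by_cases ib : b ∈ A <;>
    by_cases ic : c ∈ A <;> by_cases id : d ∈ A <;>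
    simp [inn, dd, ip, iq, ia, ib, ic, id] at eab eac ead ebc ecd
  all_goals
    rw [Nat.odd_iff] at eab
    rw [Nat.even_iff] at eac ebc
    omega

theorem no_k2' (A : Finset V) (D : Finset (V × V)) {J : Type} {F : SimpleGraph J}
    {w : Fin 2 ⊕ J → V} (hw : Cp (gr A D) F w) {a b c d : J} (ab : F.Adj a b) (hac : a ≠ c)
    (had : a ≠ d) (hbc : b ≠ c) (hcd : c ≠ d) (nac : ¬ F.Adj a c) (nad : ¬ F.Adj a d)
    (nbc : ¬ F.Adj b c) (ncd : ¬ F.Adj c d) : False := by
  obtain ⟨hi, hF⟩ := hw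
  have hab : a ≠ b := F.ne_of_adj ab
  have ne : ∀ {x y : Fin 2 ⊕ J}, x ≠ y → w x ≠ w y := fun h h' => h (hi h')
  exact no_k2 A D (p := w (Sum.inl 0)) (q := w (Sum.inl 1)) (a := w (Sum.inr a))
    (b := w (Sum.inr b)) (c := w (Sum.inr c)) (d := w (Sum.inr d)) (ne (by simp)) (ne (by simp))
    (ne (by simp)) (ne (by simp)) (ne (by simp)) (ne (by simp)) (ne (by simp)) (ne (by simp))
    (ne (by simp)) (ne (by simpa using hab)) (ne (by simpa using hac)) (ne (by simpa using had))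
    (ne (by simpa using hbc)) (ne (by simpa using hcd)) ((hF a b hab).mp ab)
    (fun h => nac ((hF a c hac).mpr h)) (fun h => nad ((hF a d had).mpr h))
    (fun h => nbc ((hF b c hbc).mpr h)) (fun h => ncd ((hF c d hcd).mpr h))

theorem no_G1 (A : Finset V) (D : Finset (V × V)) {t : ℕ} (ht : 2 ≤ t)
    (w : Fin 2 ⊕ (Fin t ⊕ Fin t) → V) : ¬ Cp (gr A D) (G1 t) w := by
  intro hw
  have h01 : (⟨0, by omega⟩ : Fin t) ≠ ⟨1, by omega⟩ := by simp [Fin.ext_iff]
  exact no_k2' A D hw (a := Sum.inl ⟨0, by omega⟩) (b := Sum.inl ⟨1, by omega⟩)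
    (c := Sum.inr ⟨0, by omega⟩) (d := Sum.inr ⟨1, by omega⟩)
    (by simp [G1, SimpleGraph.sum]) (by simp) (by simp) (by simp) (by simp)
    (by simp [G1, SimpleGraph.sum]) (by simp [G1, SimpleGraph.sum])
    (by simp [G1, SimpleGraph.sum]) (by simp [G1, SimpleGraph.sum])

theorem no_G2 (A : Finset V) (D : Finset (V × V)) {t : ℕ} (ht : 2 ≤ t)
    (w : Fin 2 ⊕ ((Fin t ⊕ Fin t) ⊕ Fin t) → V) : ¬ Cp (gr A D) (G2 t) w := by
  intro hw
  exact no_k2' A D hw (a := Sum.inl (Sum.inl ⟨0, by omega⟩)) (b := Sum.inl (Sum.inr ⟨0, by omega⟩))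
    (c := Sum.inr ⟨0, by omega⟩) (d := Sum.inr ⟨1, by omega⟩)
    (by simp [G2, SimpleGraph.sum]) (by simp) (by simp) (by simp) (by simp)
    (by simp [G2, SimpleGraph.sum]) (by simp [G2, SimpleGraph.sum])
    (by simp [G2, SimpleGraph.sum]) (by simp [G2, SimpleGraph.sum])

end Pool.Agent.N443.PL
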