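import Pool.Agent.N443.PL.Low

/-! The lower bound `11/16`. -/

set_option autoImplicit false
open Finset

namespace Pool.Agent.N443.PL
open Pool.Agent.W846.F2 (gr gr_free gr_uniform gr_card exists_D qd qd_card)

theorem low_num {n a b g : ℕ} (hn : 5 ≤ n) (ha : a = n / 2) (hb : b = n - n / 2)
    (h3 : 2 * (a.choose 3 * b + a * b.choose 3) + a.choose 2 * b.choose 2 ≤ 2 * g) :
    11 / 16 * ((n : ℝ) - 5) ^ 4 ≤ 24 * (g : ℝ) := by
  have k1 : (((a + 1 - 3 : ℕ) : ℝ)) ^ 3 ≤ 6 * (a.choose 3 : ℝ) := by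
    have := Nat.pow_le_choose (α := ℝ) 3 a
    have e : ((3 : ℕ).factorial : ℝ) = 6 := by norm_num [Nat.factorial]
    rw [div_le_iff₀ (by positivity), e] at this
    linarith
  have k2 : (((b + 1 - 3 : ℕ) : ℝ)) ^ 3 ≤ 6 * (b.choose 3 : ℝ) := by
    have := Nat.pow_le_choose (α := ℝ) 3 b
    have e : ((3 : ℕ).factorial : ℝ) = 6 := by norm_num [Nat.factorial]
    rw [div_le_iff₀ (by positivity), e] at this
    linarith
  have k3 : (((a + 1 - 2 : ℕ) : ℝ)) ^ 2 ≤ 2 * (a.choose 2 : ℝ) := by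
    have := Nat.pow_le_choose (α := ℝ) 2 a
    have e : ((2 : ℕ).factorial : ℝ) = 2 := by norm_num [Nat.factorial]
    rw [div_le_iff₀ (by positivity), e] at this
    linarith
  have k4 : (((b + 1 - 2 : ℕ) : ℝ)) ^ 2 ≤ 2 * (b.choose 2 : ℝ) := by
    have := Nat.pow_le_choose (α := ℝ) 2 b
    have e : ((2 : ℕ).factorial : ℝ) = 2 := by norm_num [Nat.factorial]
    rw [div_le_iff₀ (by positivity), e] at this
    linarith
  have h1' : 2 * ((a.choose 3 : ℝ) * b + a * (b.choose 3 : ℝ)) + (a.choose 2 : ℝ) * (b.choose 2 : ℝ)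
      ≤ 2 * (g : ℝ) := by
    exact_mod_cast h3
  have m0 : (0 : ℝ) ≤ ((n : ℝ) - 5) / 2 := by
    have : (5 : ℝ) ≤ n := by exact_mod_cast hn
    linarith
  have m1 : ((n : ℝ) - 5) / 2 ≤ ((a + 1 - 3 : ℕ) : ℝ) := by
    have : n ≤ 2 * (a + 1 - 3) + 5 := by omega
    have : (n : ℝ) ≤ 2 * ((a + 1 - 3 : ℕ) : ℝ) + 5 := by exact_mod_cast this
    linarith
  have m2 : ((n : ℝ) - 5) / 2 ≤ ((b + 1 - 3 : ℕ) : ℝ) := by
    have : n ≤ 2 * (b + 1 - 3) + 5 := by omega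
    have : (n : ℝ) ≤ 2 * ((b + 1 - 3 : ℕ) : ℝ) + 5 := by exact_mod_cast this
    linarith
  have m3 : ((n : ℝ) - 5) / 2 ≤ ((a + 1 - 2 : ℕ) : ℝ) := by
    have : n ≤ 2 * (a + 1 - 2) + 5 := by omega
    have : (n : ℝ) ≤ 2 * ((a + 1 - 2 : ℕ) : ℝ) + 5 := by exact_mod_cast this
    linarith
  have m4 : ((n : ℝ) - 5) / 2 ≤ ((b + 1 - 2 : ℕ) : ℝ) := by
    have : n ≤ 2 * (b + 1 - 2) + 5 := by omega
    have : (n : ℝ) ≤ 2 * ((b + 1 - 2 : ℕ) : ℝ) + 5 := by exact_mod_cast this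
    linarith
  have m5 : ((n : ℝ) - 5) / 2 ≤ (a : ℝ) := by
    have : n ≤ 2 * a + 5 := by omega
    have : (n : ℝ) ≤ 2 * (a : ℝ) + 5 := by exact_mod_cast this
    linarith
  have m6 : ((n : ℝ) - 5) / 2 ≤ (b : ℝ) := by
    have : n ≤ 2 * b + 5 := by omega
    have : (n : ℝ) ≤ 2 * (b : ℝ) + 5 := by exact_mod_cast this
    linarith
  set m := ((n : ℝ) - 5) / 2 with hm
  have e : 11 / 16 * ((n : ℝ) - 5) ^ 4 = 11 * m ^ 4 := by rw [hm]; ring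
  rw [e]
  have p1 : m ^ 3 ≤ 6 * (a.choose 3 : ℝ) := (pow_le_pow_left₀ m0 m1 3).trans k1
  have p2 : m ^ 3 ≤ 6 * (b.choose 3 : ℝ) := (pow_le_pow_left₀ m0 m2 3).trans k2
  have p3 : m ^ 2 ≤ 2 * (a.choose 2 : ℝ) := (pow_le_pow_left₀ m0 m3 2).trans k3
  have p4 : m ^ 2 ≤ 2 * (b.choose 2 : ℝ) := (pow_le_pow_left₀ m0 m4 2).trans k4
  have q1 : m ^ 3 * m ≤ 6 * (a.choose 3 : ℝ) * b := mul_le_mul p1 m6 m0 (by positivity)
  have q2 : m * m ^ 3 ≤ a * (6 * (b.choose 3 : ℝ)) := mul_le_mul m5 p2 (by positivity) (by positivity)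
  have q3 : m ^ 2 * m ^ 2 ≤ 2 * (a.choose 2 : ℝ) * (2 * (b.choose 2 : ℝ)) :=
    mul_le_mul p3 p4 (by positivity) (by positivity)
  nlinarith

/-- dense 4-graphs without the patterns -/
theorem lower (ε : ℝ) (hε : 0 < ε) : ∃ n0 : ℕ, ∀ n : ℕ, n0 ≤ n → ∃ H : Finset (Finset (Fin n)),
    H ⊆ powersetCard 4 univ ∧ (¬ ∃ S : Finset (Fin n), S.card = 5 ∧ S.powersetCard 4 ⊆ H) ∧
    (∀ t : ℕ, 2 ≤ t → (∀ w, ¬ Cp H (G1 t) w) ∧ (∀ w, ¬ Cp H (G2 t) w)) ∧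
    (11 / 16 - ε) * (n.choose 4 : ℝ) ≤ (H.card : ℝ) := by
  refine ⟨max 5 ⌈14 / ε⌉₊, fun n hn => ?_⟩
  have hn5 : 5 ≤ n := (le_max_left _ _).trans hn
  have hn1 : 14 / ε ≤ (n : ℝ) := (Nat.le_ceil _).trans (by
    exact_mod_cast (le_max_right _ _).trans hn)
  set A : Finset (Fin n) := univ.filter fun x => (x : ℕ) < n / 2 with hA
  have hc : A.card = n / 2 := by
    rw [hA, Fin.card_filter_val_lt]
    omega
  have hc2 : (Aᶜ).card = n - n / 2 := by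
    rw [card_compl, Fintype.card_fin, hc]
  obtain ⟨D, hD⟩ := exists_D A
  have hg : 2 * (A.card.choose 3 * (Aᶜ).card + A.card * (Aᶜ).card.choose 3)
      + A.card.choose 2 * (Aᶜ).card.choose 2 ≤ 2 * (gr A D).card := by
    rw [gr_card]
    have h1 := qd_card A (k := 1) (by norm_num)
    have h2 := qd_card A (k := 2) (by norm_num)
    have h3 := qd_card A (k := 3) (by norm_num)
    norm_num at h1 h2 h3
    omega
  have h := low_num hn5 hc hc2 hg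
  refine ⟨gr A D, fun e he => mem_powersetCard.mpr ⟨subset_univ _, gr_uniform A D e he⟩,
    gr_free A D, fun t ht => ⟨no_G1 A D ht, no_G2 A D ht⟩, ?_⟩
  have hch : (n.choose 4 : ℝ) ≤ (n : ℝ) ^ 4 / 24 := by
    have := Nat.choose_le_pow_div (α := ℝ) 4 n
    have e : ((4 : ℕ).factorial : ℝ) = 24 := by norm_num [Nat.factorial]
    rw [e] at this
    exact this
  have hnr : (5 : ℝ) ≤ n := by exact_mod_cast hn5
  rcases le_or_gt (11 / 16 - ε) 0 with hneg | hpos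
  · exact (mul_nonpos_of_nonpos_of_nonneg hneg (Nat.cast_nonneg _)).trans (Nat.cast_nonneg _)
  · refine (mul_le_mul_of_nonneg_left hch hpos.le).trans ?_
    have h4 : (n : ℝ) ^ 4 - 20 * (n : ℝ) ^ 3 ≤ ((n : ℝ) - 5) ^ 4 := by
      nlinarith [sq_nonneg ((n : ℝ)), mul_nonneg (by linarith : (0 : ℝ) ≤ (n : ℝ) - 5)
        (by linarith : (0 : ℝ) ≤ (n : ℝ))]
    rw [div_le_iff₀ hε] at hn1
    have h5 : 14 * (n : ℝ) ^ 3 ≤ ε * (n : ℝ) ^ 4 := by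
      have := mul_le_mul_of_nonneg_right hn1 (by positivity : (0 : ℝ) ≤ (n : ℝ) ^ 3)
      nlinarith
    nlinarith

end Pool.Agent.N443.PL
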