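import Mathlib

/-! Ramsey's theorem for `k`-element sets. -/

set_option autoImplicit false
open Finset

namespace Pool.Agent.N443.PL

/-- Ramsey's theorem for `k`-element subsets of a linearly ordered finite set -/
theorem ram (C : Type) [Fintype C] [DecidableEq C] [Nonempty C] (k : ℕ) : ∀ t : ℕ, ∃ N : ℕ,
    ∀ (α : Type) [LinearOrder α] (A : Finset α), N ≤ A.card → ∀ col : Finset α → C,
    ∃ (B : Finset α) (c : C), B ⊆ A ∧ B.card = t ∧ ∀ Q ⊆ B, Q.card = k → col Q = c := by
  classical
  induction k with
  | zero =>
    intro t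
    refine ⟨t, fun α _ A hA col => ?_⟩
    obtain ⟨B, hB, hBt⟩ := exists_subset_card_eq hA
    refine ⟨B, col ∅, hB, hBt, fun Q _ hQ => ?_⟩
    rw [card_eq_zero.mp hQ]
  | succ k ihk =>
    intro t
    -- end-homogeneous sets
    have key : ∀ s : ℕ, ∃ N : ℕ, ∀ (α : Type) [LinearOrder α] (A : Finset α), N ≤ A.card →
        ∀ col : Finset α → C, ∃ (B : Finset α) (h : α → C), B ⊆ A ∧ B.card = s ∧
          ∀ Q ⊆ B, Q.card = k + 1 → ∀ a ∈ Q, (∀ b ∈ Q, a ≤ b) → col Q = h a := by
      intro s
      induction s with
      | zero =>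
        refine ⟨0, fun α _ A _ col => ⟨∅, fun _ => col ∅, empty_subset _, card_empty, ?_⟩⟩
        intro Q hQ hc
        rw [subset_empty.mp hQ] at hc
        simp at hc
      | succ s ih =>
        obtain ⟨N, hN⟩ := ih
        obtain ⟨M, hM⟩ := ihk N
        refine ⟨M + 1, fun α _ A hA col => ?_⟩
        have hne : A.Nonempty := card_pos.mp (by omega)
        set x0 := A.min' hne with hx0
        have h1 : M ≤ (A.erase x0).card := by
          rw [card_erase_of_mem (min'_mem A hne)]
          omega
        obtain ⟨D, c, hD, hDN, hDc⟩ := hM α (A.erase x0) h1 (fun Q => col (insert x0 Q))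
        obtain ⟨B, h, hB, hs, hh⟩ := hN α D hDN.ge col
        have hBA : ∀ b ∈ B, b ∈ A.erase x0 := fun b hb => hD (hB hb)
        have hlt : ∀ b ∈ B, x0 < b := fun b hb =>
          lt_of_le_of_ne (min'_le A b (mem_of_mem_erase (hBA b hb))) (ne_of_mem_erase (hBA b hb)).symm
        have hnot : x0 ∉ B := fun hb => lt_irrefl _ (hlt x0 hb)
        refine ⟨insert x0 B, fun a => if a = x0 then c else h a, ?_, ?_, ?_⟩
        · intro b hb
          rcases mem_insert.mp hb with rfl | hb
          · exact min'_mem A hne
          · exact mem_of_mem_erase (hBA b hb)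
        · rw [card_insert_of_notMem hnot, hs]
        · intro Q hQ hQc a ha hmin
          by_cases hx : x0 ∈ Q
          · have hax : a = x0 := by
              refine le_antisymm (hmin x0 hx) ?_
              rcases mem_insert.mp (hQ ha) with h2 | h2
              · exact h2.ge
              · exact (hlt a h2).le
            simp only [hax, if_true]
            have h3 : Q.erase x0 ⊆ D := by
              intro b hb
              rcases mem_insert.mp (hQ (mem_of_mem_erase hb)) with h4 | h4
              · exact absurd h4 (ne_of_mem_erase hb)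
              · exact hB h4
            have h4 := hDc (Q.erase x0) h3 (by rw [card_erase_of_mem hx, hQc]; rfl)
            rw [insert_erase hx] at h4
            exact h4
          · have hax : a ≠ x0 := fun e => hx (e ▸ ha)
            simp only [if_neg hax]
            refine hh Q (fun b hb => ?_) hQc a ha hmin
            rcases mem_insert.mp (hQ hb) with h2 | h2
            · exact absurd (h2 ▸ hb) hx
            · exact h2
    obtain ⟨N, hN⟩ := key (Fintype.card C * t)
    refine ⟨N, fun α _ A hA col => ?_⟩
    obtain ⟨B, h, hB, hs, hh⟩ := hN α A hA col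
    obtain ⟨c, -, hc⟩ := exists_le_card_fiber_of_mul_le_card_of_maps_to (s := B)
      (t := (univ : Finset C)) (f := h) (fun _ _ => mem_univ _) univ_nonempty
      (by rw [card_univ, hs])
    obtain ⟨D, hD, hDt⟩ := exists_subset_card_eq hc
    refine ⟨D, c, fun b hb => hB (mem_filter.mp (hD hb)).1, hDt, fun Q hQ hQc => ?_⟩
    have hne : Q.Nonempty := card_pos.mp (by omega)
    have h1 := hh Q (fun b hb => (mem_filter.mp (hD (hQ hb))).1) hQc (Q.min' hne) (min'_mem _ _)
      (fun b hb => min'_le _ _ hb)
    rw [h1]
    exact (mem_filter.mp (hD (hQ (min'_mem Q hne)))).2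

end Pool.Agent.N443.PL
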