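import Pool.Agent.N443.PL.Few
import Pool.Agent.Y440.P.Final
import Pool.Agent.Y440.P.Dens
import Pool.Agent.Y430.Q440.Univ

/-! The upper bound. -/

set_option autoImplicit false
open Finset

namespace Pool.Agent.N443.PL
open Pool.Agent.Y440.A (nin)
open Pool.Agent.Y440.P (fv univ_dens)

section
variable {V : Type} [DecidableEq V]

theorem er5 {u v w r s : V} (uv : u ≠ v) (uw : u ≠ w) (ur : u ≠ r) (us : u ≠ s) (vw : v ≠ w)
    (vr : v ≠ r) (vs : v ≠ s) (wr : w ≠ r) (ws : w ≠ s) (rs : r ≠ s) :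
    ({u, v, w, r, s} : Finset V).erase u = {v, w, r, s} ∧
    ({u, v, w, r, s} : Finset V).erase v = {u, w, r, s} ∧
    ({u, v, w, r, s} : Finset V).erase w = {u, v, r, s} ∧
    ({u, v, w, r, s} : Finset V).erase r = {u, v, w, s} ∧
    ({u, v, w, r, s} : Finset V).erase s = {u, v, w, r} := by
  refine ⟨?_, ?_, ?_, ?_, ?_⟩ <;> ext z <;> simp only [mem_erase, mem_insert, mem_singleton] <;>
    grind

theorem im5 (x : Fin 5 → V) : univ.image x = {x 0, x 1, x 2, x 3, x 4} := by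
  ext z
  simp only [mem_image, mem_univ, true_and, mem_insert, mem_singleton, Fin.exists_fin_succ,
    IsEmpty.exists_iff, or_false]
  constructor
  · rintro (h | h | h | h | h)
    · exact Or.inl h.symm
    · exact Or.inr (Or.inl h.symm)
    · exact Or.inr (Or.inr (Or.inl h.symm))
    · exact Or.inr (Or.inr (Or.inr (Or.inl h.symm)))
    · exact Or.inr (Or.inr (Or.inr (Or.inr h.symm)))
  · rintro (h | h | h | h | h)
    · exact Or.inl h.symm
    · exact Or.inr (Or.inl h.symm)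
    · exact Or.inr (Or.inr (Or.inl h.symm))
    · exact Or.inr (Or.inr (Or.inr (Or.inl h.symm)))
    · exact Or.inr (Or.inr (Or.inr (Or.inr h.symm)))

end

variable {n : ℕ}

theorem fv3_le (H : Finset (Finset (Fin n))) (hH : H ⊆ powersetCard 4 univ) :
    fv H 3 ≤ (S3 H).card := by
  classical
  unfold fv
  refine card_le_card_of_surjOn (fun x : Fin 5 → Fin n => univ.image x) ?_
  intro P hP
  obtain ⟨hP1, hP2⟩ := mem_filter.mp (mem_coe.mp hP)
  have hPc := (mem_powersetCard.mp hP1).2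
  have hn := Pool.Agent.Y430.Q440.nin_eq H hH P hPc
  rw [hP2, ← card_filter] at hn
  set M := P.filter fun x => P.erase x ∈ H with hM
  obtain ⟨u, v, w, uv, uw, vw, hMe⟩ := card_eq_three.mp hn.symm
  have hR : (P \ M).card = 2 := by
    rw [card_sdiff_of_subset (filter_subset _ _), hPc, ← hn]
  obtain ⟨r, s, rs, hRe⟩ := card_eq_two.mp hR
  have hu : u ∈ M := by rw [hMe]; simp
  have hv : v ∈ M := by rw [hMe]; simp
  have hw : w ∈ M := by rw [hMe]; simp
  have hr : r ∈ P \ M := by rw [hRe]; simp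
  have hs : s ∈ P \ M := by rw [hRe]; simp
  have ne : ∀ {a b : Fin n}, a ∈ M → b ∈ P \ M → a ≠ b := fun h1 h2 h3 =>
    (mem_sdiff.mp h2).2 (h3 ▸ h1)
  have hPe : P = {u, v, w, r, s} := by
    have h1 : P = M ∪ (P \ M) := (union_sdiff_of_subset (filter_subset _ _)).symm
    rw [h1, hRe, hMe]
    ext z
    simp only [mem_union, mem_insert, mem_singleton]
    tauto
  obtain ⟨e1, e2, e3, e4, e5⟩ := er5 uv uw (ne hu hr) (ne hu hs) vw (ne hv hr) (ne hv hs) (ne hw hr)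
    (ne hw hs) rs
  rw [← hPe] at e1 e2 e3 e4 e5
  refine ⟨![u, v, w, r, s], mem_coe.mpr (mem_S3.mpr ⟨?_, ?_, ?_, ?_, ?_⟩), ?_⟩
  · have := (mem_filter.mp hu).2
    rw [e1] at this
    exact this
  · have := (mem_filter.mp hv).2
    rw [e2] at this
    exact this
  · have := (mem_filter.mp hw).2
    rw [e3] at this
    exact this
  · intro h
    refine (mem_sdiff.mp hr).2 (mem_filter.mpr ⟨(mem_sdiff.mp hr).1, ?_⟩)
    rw [e4]
    exact h
  · intro h
    refine (mem_sdiff.mp hs).2 (mem_filter.mpr ⟨(mem_sdiff.mp hs).1, ?_⟩)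
    rw [e5]
    exact h
  · change univ.image _ = P
    rw [im5, hPe]
    rfl

theorem o5_le (H : Finset (Finset (Fin n))) (hH : H ⊆ powersetCard 4 univ) :
    (O5 H).card ≤ 3125 * fv H 5 := by
  classical
  have hsub : (O5 H).image (fun x : Fin 5 → Fin n => univ.image x) ⊆
      (powersetCard 5 (univ : Finset (Fin n))).filter fun S => nin H S = 5 := by
    intro P hP
    obtain ⟨x, hx, rfl⟩ := mem_image.mp hP
    obtain ⟨hi, h0, h1, h2, h3, h4⟩ := mem_O5.mp hx
    have hc : (univ.image x).card = 5 := by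
      rw [card_image_of_injective _ hi, card_univ, Fintype.card_fin]
    refine mem_filter.mpr ⟨mem_powersetCard.mpr ⟨subset_univ _, hc⟩, ?_⟩
    rw [Pool.Agent.Y430.Q440.nin_eq H hH _ hc, ← card_filter, filter_true_of_mem, hc]
    have ne : ∀ {i j : Fin 5}, i ≠ j → x i ≠ x j := fun h h' => h (hi h')
    obtain ⟨e1, e2, e3, e4, e5⟩ := er5 (ne (by decide : (0 : Fin 5) ≠ 1))
      (ne (by decide : (0 : Fin 5) ≠ 2)) (ne (by decide : (0 : Fin 5) ≠ 3))
      (ne (by decide : (0 : Fin 5) ≠ 4)) (ne (by decide : (1 : Fin 5) ≠ 2))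
      (ne (by decide : (1 : Fin 5) ≠ 3)) (ne (by decide : (1 : Fin 5) ≠ 4))
      (ne (by decide : (2 : Fin 5) ≠ 3)) (ne (by decide : (2 : Fin 5) ≠ 4))
      (ne (by decide : (3 : Fin 5) ≠ 4))
    intro z hz
    rw [im5] at hz ⊢
    simp only [mem_insert, mem_singleton] at hz
    rcases hz with rfl | rfl | rfl | rfl | rfl
    · rw [e1]; exact h0
    · rw [e2]; exact h1
    · rw [e3]; exact h2
    · rw [e4]; exact h3
    · rw [e5]; exact h4
  refine (card_le_mul_card_image (f := fun x : Fin 5 → Fin n => univ.image x) (O5 H) 3125 ?_).trans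
    (Nat.mul_le_mul_left _ (card_le_card hsub))
  intro P hP
  have hPc : P.card = 5 := (mem_powersetCard.mp (mem_filter.mp (hsub hP)).1).2
  refine (card_le_card (t := Fintype.piFinset fun _ : Fin 5 => P) ?_).trans (le_of_eq ?_)
  · intro x hx
    rw [Fintype.mem_piFinset]
    intro i
    rw [← (mem_filter.mp hx).2]
    exact mem_image_of_mem x (mem_univ i)
  · rw [Fintype.card_piFinset, prod_const, card_univ, Fintype.card_fin, hPc]
    norm_num

theorem choose5_ge {n : ℕ} (hn : 8 ≤ n) : (n : ℝ) ^ 5 ≤ 3840 * (n.choose 5 : ℝ) := by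
  have h := Nat.pow_le_choose (α := ℝ) 5 n
  have e : ((5 : ℕ).factorial : ℝ) = 120 := by norm_num [Nat.factorial]
  rw [e, div_le_iff₀ (by norm_num)] at h
  have h1 : (n : ℝ) / 2 ≤ ((n + 1 - 5 : ℕ) : ℝ) := by
    have : n ≤ 2 * (n + 1 - 5) := by omega
    have : (n : ℝ) ≤ 2 * ((n + 1 - 5 : ℕ) : ℝ) := by exact_mod_cast this
    linarith
  have h2 : ((n : ℝ) / 2) ^ 5 ≤ (((n + 1 - 5 : ℕ) : ℝ)) ^ 5 := pow_le_pow_left₀ (by positivity) h1 5
  have h3 : ((n : ℝ) / 2) ^ 5 = (n : ℝ) ^ 5 / 32 := by ring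
  rw [h3] at h2
  linarith

/-- the main inequality -/
theorem upper (t : ℕ) (ε : ℝ) (hε : 0 < ε) : ∃ δ : ℝ, 0 < δ ∧ ∃ n0 : ℕ, ∀ n : ℕ, n0 ≤ n →
    ∀ H : Finset (Finset (Fin n)), H ⊆ powersetCard 4 univ → (fv H 5 : ℝ) ≤ δ * (n : ℝ) ^ 5 →
    ((OC H (G1 t)).card : ℝ) ≤ δ * (n : ℝ) ^ (2 + (t + t)) →
    ((OC H (G2 t)).card : ℝ) ≤ δ * (n : ℝ) ^ (2 + (t + t + t)) →
    (fv H 3 : ℝ) ≤ ε * (n : ℝ) ^ 5 ∧
    (H.card : ℝ) / (n.choose 4 : ℝ) + 3 / 5 * ((fv H 1 : ℝ) / (n.choose 5 : ℝ)) ≤ 11 / 16 + ε := by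
  obtain ⟨δ, hδ, n0, h0⟩ := few t (ε / 3840) (by positivity)
  refine ⟨min (δ / 3125) (ε / 15360), lt_min (by positivity) (by positivity),
    max (max n0 8) ⌈1200 / ε⌉₊, fun n hn H hH h5 h1 h2 => ?_⟩
  have hn0 : n0 ≤ n := (le_max_left _ _).trans ((le_max_left _ _).trans hn)
  have hn8 : 8 ≤ n := (le_max_right _ _).trans ((le_max_left _ _).trans hn)
  have hn3 : 1200 / ε ≤ (n : ℝ) := (Nat.le_ceil _).trans (by
    exact_mod_cast (le_max_right _ _).trans hn)
  have hnp : (0 : ℝ) < n := by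
    have : 0 < n := by omega
    exact_mod_cast this
  have m1 : min (δ / 3125) (ε / 15360) ≤ δ / 3125 := min_le_left _ _
  have m2 : min (δ / 3125) (ε / 15360) ≤ ε / 15360 := min_le_right _ _
  have mδ : min (δ / 3125) (ε / 15360) ≤ δ := m1.trans (by linarith)
  have hS : ((S3 H).card : ℝ) ≤ ε / 3840 * (n : ℝ) ^ 5 := by
    have h := h0 (Fin n) H (by rw [Fintype.card_fin]; exact hn0)
    rw [Fintype.card_fin] at h
    refine h ?_ (h1.trans (mul_le_mul_of_nonneg_right mδ (by positivity)))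
      (h2.trans (mul_le_mul_of_nonneg_right mδ (by positivity)))
    have h3 : ((O5 H).card : ℝ) ≤ 3125 * (fv H 5 : ℝ) := by exact_mod_cast o5_le H hH
    have h4 := mul_le_mul_of_nonneg_right m1 (by positivity : (0 : ℝ) ≤ (n : ℝ) ^ 5)
    have h5' := h5.trans h4
    have h6 : (3125 : ℝ) * (δ / 3125 * (n : ℝ) ^ 5) = δ * (n : ℝ) ^ 5 := by ring
    linarith
  have hf3 : (fv H 3 : ℝ) ≤ ε / 3840 * (n : ℝ) ^ 5 :=
    le_trans (by exact_mod_cast fv3_le H hH) hS
  have hp5 : (0 : ℝ) < (n.choose 5 : ℝ) := by exact_mod_cast Nat.choose_pos (by omega)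
  have hc5 := choose5_ge hn8
  refine ⟨hf3.trans (mul_le_mul_of_nonneg_right (by linarith) (by positivity)), ?_⟩
  have hd := univ_dens Pool.Agent.Y430.Q440.t Pool.Agent.Y440.P.main n (by omega) H hH
  have a3 : (fv H 3 : ℝ) / (n.choose 5 : ℝ) ≤ ε := by
    rw [div_le_iff₀ hp5]
    refine hf3.trans ?_
    have := mul_le_mul_of_nonneg_left hc5 (by positivity : (0 : ℝ) ≤ ε / 3840)
    linarith
  have a5 : (fv H 5 : ℝ) / (n.choose 5 : ℝ) ≤ ε / 4 := by
    rw [div_le_iff₀ hp5]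
    refine (h5.trans (mul_le_mul_of_nonneg_right m2 (by positivity))).trans ?_
    have := mul_le_mul_of_nonneg_left hc5 (by positivity : (0 : ℝ) ≤ ε / 15360)
    linarith
  have a0 : 300 / (n : ℝ) ≤ ε / 4 := by
    rw [div_le_iff₀ hε] at hn3
    rw [div_le_iff₀ hnp]
    linarith
  linarith

end Pool.Agent.N443.PL
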